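import Pool.Agent.Lib_helper72.RBO.FoRed
import Pool.Agent.Lib_helper65.RBO.P5s

/-!
# The ratio `1 : 3`: the basin is first-order definable from the graph of the power series
-/

namespace Pool.Agent.Lib_helper72.RBO

open Filter Topology
open Pool.Agent.Lib_helper65.RB
open Pool.Agent.Lib_helper65.RBO

theorem fo_univ {n : ℕ} (B : Set (Fin n → ℝ)) : FO B Set.univ := by
  have h := FO.pos (B := B) 1
  have e : {x : ℕ → ℝ | 0 < MvPolynomial.eval x 1} = Set.univ := by
    ext x; simp
  rwa [e] at h

theorem fo_ball {n : ℕ} {B : Set (Fin n → ℝ)} (s : ℕ → Set (ℕ → ℝ)) (hs : ∀ i, FO B (s i))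
    (N : ℕ) : FO B {x | ∀ i < N, x ∈ s i} := by
  induction N with
  | zero =>
    have e : {x : ℕ → ℝ | ∀ i < 0, x ∈ s i} = Set.univ := by
      ext x; simp
    rw [e]; exact fo_univ B
  | succ N ih =>
    have e : {x : ℕ → ℝ | ∀ i < N + 1, x ∈ s i} = {x : ℕ → ℝ | ∀ i < N, x ∈ s i} ∩ s N := by
      ext x
      constructor
      · intro h
        exact ⟨fun i hi => h i (by omega), h N (by omega)⟩
      · rintro ⟨h1, h2⟩ i hi
        rcases Nat.lt_succ_iff_lt_or_eq.1 hi with h | rfl
        · exact h1 i h
        · exact h2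
    rw [e]; exact ih.inter (hs N)

/-- A block of existential quantifiers. -/
theorem fo_exs {n : ℕ} {B : Set (Fin n → ℝ)} {s : Set (ℕ → ℝ)} (hs : FO B s) (a b : ℕ)
    (hab : a ≤ b) :
    FO B {x | ∃ z : ℕ → ℝ, (∀ i, (i < a ∨ b ≤ i) → z i = x i) ∧ z ∈ s} := by
  induction b, hab using Nat.le_induction with
  | base =>
    have e : {x : ℕ → ℝ | ∃ z : ℕ → ℝ, (∀ i, (i < a ∨ a ≤ i) → z i = x i) ∧ z ∈ s} = s := by
      ext x
      constructor
      · rintro ⟨z, hz, hzs⟩
        have : z = x := funext fun i => hz i (Nat.lt_or_ge i a)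
        rw [← this]; exact hzs
      · intro hx
        exact ⟨x, fun i _ => rfl, hx⟩
    rw [e]; exact hs
  | succ b hab ih =>
    have h := FO.ex b ih
    have e : {x : ℕ → ℝ | ∃ z : ℕ → ℝ, (∀ i, (i < a ∨ b + 1 ≤ i) → z i = x i) ∧ z ∈ s} =
        {x : ℕ → ℝ | ∃ y : ℝ, Function.update x b y ∈
          {x : ℕ → ℝ | ∃ z : ℕ → ℝ, (∀ i, (i < a ∨ b ≤ i) → z i = x i) ∧ z ∈ s}} := by
      ext x
      constructor
      · rintro ⟨z, hz, hzs⟩
        refine ⟨z b, z, fun i hi => ?_, hzs⟩
        by_cases hib : i = b
        · rw [hib, Function.update_self]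
        · rw [Function.update_of_ne hib]
          exact hz i (by omega)
      · rintro ⟨y, z, hz, hzs⟩
        refine ⟨z, fun i hi => ?_, hzs⟩
        rw [hz i (by omega), Function.update_of_ne (by omega)]
    rw [e]; exact h

/-- The solution with initial values `v`. -/
noncomputable def solx (k l : ℕ) (v : ℕ → ℝ) (i : ℕ) : ℝ :=
  if h : i ≤ max k l then v i else 1 / solx k l v (i - 1 - k) + 1 / solx k l v (i - 1 - l)
termination_by i
decreasing_by all_goals omega

theorem solx_init {k l : ℕ} {v : ℕ → ℝ} {i : ℕ} (h : i ≤ max k l) : solx k l v i = v i := by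
  rw [solx, dif_pos h]

theorem solx_rec {k l : ℕ} (v : ℕ → ℝ) (j : ℕ) : solx k l v (j + max k l + 1) =
    1 / solx k l v (j + max k l - k) + 1 / solx k l v (j + max k l - l) := by
  conv_lhs => rw [solx]
  rw [dif_neg (by omega)]
  have e1 : j + max k l + 1 - 1 - k = j + max k l - k := by omega
  have e2 : j + max k l + 1 - 1 - l = j + max k l - l := by omega
  rw [e1, e2]

theorem fo5_of {n : ℕ} {ε : ℝ} {c : ℕ → ℕ → ℝ} {k l : ℕ}
    (h : ∀ x : ℕ → ℝ, (∀ i ≤ max k l, 0 < x i) →
      (∀ j, x (j + max k l + 1) = 1 / x (j + max k l - k) + 1 / x (j + max k l - l)) →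
      (∀ i, n * (min k l + 1) ≤ i → |x i * x (i + (min k l + 1)) - 2| ≤ ε / 2) ∧
      ((fun i : Fin (max k l + 1) => x i) ∈ Basin k l ↔
        ∀ i, n * (min k l + 1) ≤ i → i < (n + 1) * (min k l + 1) →
          x i * dser c (x i * x (i + (min k l + 1)) - 2)
            (x (i + (min k l + 1)) * x (i + 2 * (min k l + 1)) - 2) = √2)) :
    FO (graphSer ε c) {x | (fun i : Fin (max k l + 1) => x i) ∈ Basin k l} := by
  obtain ⟨m, hm⟩ : ∃ m, m = max k l := ⟨_, rfl⟩
  obtain ⟨d, hd⟩ : ∃ d, d = min k l + 1 := ⟨_, rfl⟩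
  have hkm : k ≤ m := by omega
  have hlm : l ≤ m := by omega
  obtain ⟨T, hT⟩ : ∃ T, T = (n + 3) * d + m + 1 := ⟨_, rfl⟩
  have hT1 : (n + 3) * d = n * d + 3 * d := by ring
  -- positivity
  have fA : FO (graphSer ε c) {z | ∀ i < T + 1, z ∈ {z : ℕ → ℝ | 0 < z i}} := by
    apply fo_ball
    intro i
    have := FO.pos (B := graphSer ε c) (MvPolynomial.X i)
    simpa only [MvPolynomial.eval_X] using this
  -- recursion
  have fB : FO (graphSer ε c) {z | ∀ j < T - m, z ∈ {z : ℕ → ℝ |
      z (j + m + 1) * (z (j + m - k) * z (j + m - l)) - (z (j + m - k) + z (j + m - l)) = 0}} := by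
    apply fo_ball
    intro j
    have := fo_eq (graphSer ε c) (MvPolynomial.X (j + m + 1) * (MvPolynomial.X (j + m - k) *
      MvPolynomial.X (j + m - l)) - (MvPolynomial.X (j + m - k) + MvPolynomial.X (j + m - l)))
    simpa only [map_sub, map_add, map_mul, MvPolynomial.eval_X] using this
  -- the condition
  have fC : FO (graphSer ε c) {z | ∀ i < d, z ∈ {z : ℕ → ℝ | ∃ y : ℝ,
      Function.update z (T + 1) y ∈ ({z : ℕ → ℝ | (fun a => MvPolynomial.eval z
        ((![MvPolynomial.X (n * d + i) * MvPolynomial.X (n * d + i + d) - MvPolynomial.C 2,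
          MvPolynomial.X (n * d + i + d) * MvPolynomial.X (n * d + i + 2 * d) - MvPolynomial.C 2,
          MvPolynomial.X (T + 1)] : Fin 3 → MvPolynomial ℕ ℝ) a)) ∈ graphSer ε c} ∩
        {z : ℕ → ℝ | MvPolynomial.eval z (MvPolynomial.X (n * d + i) * MvPolynomial.X (T + 1) -
          MvPolynomial.C (√2)) = 0})}} := by
    apply fo_ball
    intro i
    exact FO.ex (T + 1) ((FO.mem _).inter (fo_eq _ _))
  have key := fo_exs (fA.inter (fB.inter fC)) (m + 1) (T + 1) (by omega)
  have e : {x : ℕ → ℝ | (fun i : Fin (max k l + 1) => x i) ∈ Basin k l} =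
      {x | ∃ z : ℕ → ℝ, (∀ i, (i < m + 1 ∨ T + 1 ≤ i) → z i = x i) ∧ z ∈
        {z : ℕ → ℝ | ∀ i < T + 1, z ∈ {z : ℕ → ℝ | 0 < z i}} ∩ ({z | ∀ j < T - m, z ∈
          {z : ℕ → ℝ | z (j + m + 1) * (z (j + m - k) * z (j + m - l)) -
            (z (j + m - k) + z (j + m - l)) = 0}} ∩ {z | ∀ i < d, z ∈ {z : ℕ → ℝ | ∃ y : ℝ,
      Function.update z (T + 1) y ∈ ({z : ℕ → ℝ | (fun a => MvPolynomial.eval z
        ((![MvPolynomial.X (n * d + i) * MvPolynomial.X (n * d + i + d) - MvPolynomial.C 2,
          MvPolynomial.X (n * d + i + d) * MvPolynomial.X (n * d + i + 2 * d) - MvPolynomial.C 2,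
          MvPolynomial.X (T + 1)] : Fin 3 → MvPolynomial ℕ ℝ) a)) ∈ graphSer ε c} ∩
        {z : ℕ → ℝ | MvPolynomial.eval z (MvPolynomial.X (n * d + i) * MvPolynomial.X (T + 1) -
          MvPolynomial.C (√2)) = 0})}})} := by
    -- the last condition, in plain form
    have hC : ∀ (z : ℕ → ℝ) (i : ℕ), i < d → ((z ∈ {z : ℕ → ℝ | ∃ y : ℝ,
      Function.update z (T + 1) y ∈ ({z : ℕ → ℝ | (fun a => MvPolynomial.eval z
        ((![MvPolynomial.X (n * d + i) * MvPolynomial.X (n * d + i + d) - MvPolynomial.C 2,
          MvPolynomial.X (n * d + i + d) * MvPolynomial.X (n * d + i + 2 * d) - MvPolynomial.C 2,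
          MvPolynomial.X (T + 1)] : Fin 3 → MvPolynomial ℕ ℝ) a)) ∈ graphSer ε c} ∩
        {z : ℕ → ℝ | MvPolynomial.eval z (MvPolynomial.X (n * d + i) * MvPolynomial.X (T + 1) -
          MvPolynomial.C (√2)) = 0})}) ↔
        (|z (n * d + i) * z (n * d + i + d) - 2| ≤ ε / 2 ∧
          |z (n * d + i + d) * z (n * d + i + 2 * d) - 2| ≤ ε / 2 ∧
          z (n * d + i) * dser c (z (n * d + i) * z (n * d + i + d) - 2)
            (z (n * d + i + d) * z (n * d + i + 2 * d) - 2) = √2)) := by
      intro z i hi
      have u1 : ∀ y : ℝ, Function.update z (T + 1) y (n * d + i) = z (n * d + i) :=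
        fun y => Function.update_of_ne (by omega) _ _
      have u2 : ∀ y : ℝ, Function.update z (T + 1) y (n * d + i + d) = z (n * d + i + d) :=
        fun y => Function.update_of_ne (by omega) _ _
      have u3 : ∀ y : ℝ, Function.update z (T + 1) y (n * d + i + 2 * d) =
          z (n * d + i + 2 * d) := fun y => Function.update_of_ne (by omega) _ _
      have u4 : ∀ y : ℝ, Function.update z (T + 1) y (T + 1) = y :=
        fun y => Function.update_self _ _ _
      constructor
      · rintro ⟨y, ⟨h1, h2, h3⟩, h4⟩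
        simp only [Matrix.cons_val_zero, Matrix.cons_val_one, Matrix.cons_val, map_sub, map_mul,
          MvPolynomial.eval_X, MvPolynomial.eval_C, Set.mem_ofPred_eq, u1, u2, u3, u4] at h1 h2 h3 h4
        refine ⟨h1, h2, ?_⟩
        rw [← h3]; linarith
      · rintro ⟨h1, h2, h3⟩
        refine ⟨dser c (z (n * d + i) * z (n * d + i + d) - 2)
            (z (n * d + i + d) * z (n * d + i + 2 * d) - 2), ⟨?_, ?_, ?_⟩, ?_⟩
        all_goals simp only [Matrix.cons_val_zero, Matrix.cons_val_one, Matrix.cons_val, map_sub,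
          map_mul, MvPolynomial.eval_X, MvPolynomial.eval_C, Set.mem_ofPred_eq, u1, u2, u3, u4]
        · exact h1
        · exact h2
        · rw [h3, sub_self]
    ext x
    constructor
    · intro hx
      have hx' := hx
      unfold Basin BasinM at hx'
      obtain ⟨hpos, X, hX0, hX, _⟩ := hx'
      have hXi : ∀ i ≤ m, X i = x i := fun i hi => hX0 ⟨i, by omega⟩
      have hXp : ∀ i, 0 < X i := by
        intro i
        induction i using Nat.strong_induction_on with
        | _ i ih =>
          by_cases hi : i < max k l + 1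
          · rw [hX0 ⟨i, hi⟩]; exact hpos _
          · obtain ⟨j, rfl⟩ : ∃ j, i = j + max k l + 1 := ⟨i - (max k l + 1), by omega⟩
            rw [hX j]
            have h1 := ih (j + max k l - k) (by omega)
            have h2 := ih (j + max k l - l) (by omega)
            positivity
      have hXB : (fun i : Fin (max k l + 1) => X i) ∈ Basin k l := by
        have : (fun i : Fin (max k l + 1) => X i) = (fun i : Fin (max k l + 1) => x i) := by
          funext i; exact hX0 i
        rw [this]; exact hx
      obtain ⟨g1, g2⟩ := h X (fun i _ => hXp i) hX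
      have g3 := g2.1 hXB
      rw [← hd] at g1 g3
      have hz : ∀ i, i < T + 1 → (if i < T + 1 then X i else x i) = X i := fun i hi => if_pos hi
      refine ⟨fun i => if i < T + 1 then X i else x i, fun i hi => ?_, fun i hi => ?_,
        fun j hj => ?_, fun i hi => ?_⟩
      · rcases hi with hi | hi
        · show (if i < T + 1 then X i else x i) = x i
          rw [hz i (by omega)]; exact hXi i (by omega)
        · show (if i < T + 1 then X i else x i) = x i
          rw [if_neg (by omega)]
      · show 0 < (if i < T + 1 then X i else x i)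
        rw [hz i hi]; exact hXp i
      · show (if j + m + 1 < T + 1 then X (j + m + 1) else x (j + m + 1)) *
          ((if j + m - k < T + 1 then X (j + m - k) else x (j + m - k)) *
            (if j + m - l < T + 1 then X (j + m - l) else x (j + m - l))) -
          ((if j + m - k < T + 1 then X (j + m - k) else x (j + m - k)) +
            (if j + m - l < T + 1 then X (j + m - l) else x (j + m - l))) = 0
        rw [hz _ (by omega), hz _ (by omega), hz _ (by omega)]
        have h1 := hX j
        rw [← hm] at h1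
        rw [h1]
        have p1 := hXp (j + m - k)
        have p2 := hXp (j + m - l)
        field_simp
        ring
      · rw [hC _ i hi, hz _ (by omega), hz _ (by omega), hz _ (by omega)]
        refine ⟨g1 _ (by omega), ?_, ?_⟩
        · have := g1 (n * d + i + d) (by omega)
          have e2 : n * d + i + d + d = n * d + i + 2 * d := by ring
          rwa [e2] at this
        · exact g3 _ (by omega) (by
            have : (n + 1) * d = n * d + d := by ring
            omega)
    · rintro ⟨z, hzx, hA, hB, hCz⟩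
      have hsz : ∀ i, i < T + 1 → solx k l z i = z i := by
        intro i
        induction i using Nat.strong_induction_on with
        | _ i ih =>
          intro hi
          by_cases hi2 : i ≤ max k l
          · exact solx_init hi2
          · obtain ⟨j, rfl⟩ : ∃ j, i = j + max k l + 1 := ⟨i - (max k l + 1), by omega⟩
            rw [solx_rec, ih _ (by omega) (by omega), ih _ (by omega) (by omega)]
            have h1 := hB j (by omega)
            have p1 : 0 < z (j + m - k) := hA (j + m - k) (by omega)
            have p2 : 0 < z (j + m - l) := hA (j + m - l) (by omega)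
            simp only [Set.mem_ofPred_eq] at h1
            rw [← hm]
            field_simp
            linarith
      have hsp : ∀ i ≤ max k l, 0 < solx k l z i := by
        intro i hi
        rw [solx_init hi]
        exact hA i (by omega)
      obtain ⟨_, g2⟩ := h (solx k l z) hsp (solx_rec z)
      have e3 : (fun i : Fin (max k l + 1) => solx k l z i) =
          (fun i : Fin (max k l + 1) => x i) := by
        funext i
        have hi := i.2
        rw [solx_init (by omega)]
        exact hzx i (by omega)
      rw [e3] at g2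
      show (fun i : Fin (max k l + 1) => x i) ∈ Basin k l
      rw [g2, ← hd]
      intro i hi1 hi2
      obtain ⟨r, rfl⟩ : ∃ r, i = n * d + r := ⟨i - n * d, by omega⟩
      have hr : r < d := by
        have : (n + 1) * d = n * d + d := by ring
        omega
      have h1 := (hC z r hr).1 (hCz r hr)
      rw [hsz _ (by omega), hsz _ (by omega), hsz _ (by omega)]
      exact h1.2.2
  rw [e]
  exact key

end Pool.Agent.Lib_helper72.RBO
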