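import Pool.Agent.Lib_helper72.RBO.Asm
import Pool.Agent.Lib_helper14.RBO.CC
import Pool.Agent.Lib_helper48.RBO.Cmp
import Pool.Agent.Lib_helper83.RBO.Def8
import Pool.Agent.Lib_helper35.RBO.Num
import Pool.Agent.Lib_helper65.RBO.LimSys

/-!
# The basin is not definable in any o-minimal expansion of the real field
-/

namespace Pool.Agent.Lib_helper72.RBO

open Filter Topology
open Pool.Agent.Lib_helper65.RB
open Pool.Agent.Lib_helper65.RBO

theorem numOsc : NumOsc := fun δ hδ => Pool.Agent.Lib_helper35.RBO.num_osc δ hδ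

theorem cmp' : Cmp := by
  intro a b ha hb hab hc hN A B A' B' hA hB hA' hB' n h1 h2
  have hs : Pool.Agent.Lib_helper48.RBO.SlopeSt a b := by
    intro P inst v hv ω Θ hω hω1 hΘ
    exact slope ha.pos hab.le hc P v hv hω hω1 hΘ
  exact Pool.Agent.Lib_helper48.RBO.cmp_of ha hb hab hc hN hA hB hA' hB' hs
    (lim_sys ha hb hab hc hN hA hB hA' hB' n h1 h2)

theorem def8' : Def8 := fun ha hb hab hc hd hk hl hN => def8 ha hb hab hc hd hk hl hN

theorem main4 (k l : ℕ) (hkl : k ≠ l) (hv : padicValNat 2 (k + 1) = padicValNat 2 (l + 1))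
    (h1 : k + 1 ≠ 3 * (l + 1)) (h2 : l + 1 ≠ 3 * (k + 1)) :
    ∃ Z : Set ℝ, DefinableFrom (Basin k l) Z ∧ ¬ FinUnionIntervals Z :=
  main4_of numOsc cmp' def8' k l hkl hv h1 h2

end Pool.Agent.Lib_helper72.RBO
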