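import Pool.Agent.Lib_helper72.RBO.AppS

/-!
# The limit functional for the ratio `1 : 3` is given by a convergent power series
-/

namespace Pool.Agent.Lib_helper72.RBO

open Filter Topology
open Pool.Agent.Lib_helper65.RB
open Pool.Agent.Lib_helper65.RBO

/-- Statement of block P1. -/
def AppSeries : Prop := ∀ {R : ℝ}, 0 < R → ∀ {F : ℂ → ℂ → ℂ},
    Pool.Agent.Lib_helper65.RBO.App R F →
    ∃ c : ℕ → ℕ → ℂ, ∀ r, 0 < r → r < R →
      Summable (fun p : ℕ × ℕ => ‖c p.1 p.2‖ * r ^ (p.1 + p.2)) ∧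
      ∀ s t : ℂ, ‖s‖ ≤ r → ‖t‖ ≤ r → F s t = ∑' p : ℕ × ℕ, c p.1 p.2 * s ^ p.1 * t ^ p.2

/-- Statement of block P3. -/
def CwConv : Prop := ∃ R C ρ : ℝ, 0 < R ∧ R ≤ 1 / 2 ∧ 0 < C ∧ 0 < ρ ∧ ρ < 1 ∧
    ∀ s t : ℂ, ‖s‖ ≤ R → ‖t‖ ≤ R → ∀ n : ℕ,
      ‖cw s t n - 1‖ ≤ 1 / 4 ∧ ‖cw s t (n + 1) - cw s t n‖ ≤ C * ρ ^ n

/-- Every value of the complex recursion is in the class `App`. -/
theorem app_cw {R : ℝ} (hR : R ≤ 1 / 2)
    (h : ∀ s t : ℂ, ‖s‖ ≤ R → ‖t‖ ≤ R → ∀ n : ℕ, ‖cw s t n - 1‖ ≤ 1 / 4) (n : ℕ) :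
    Pool.Agent.Lib_helper65.RBO.App R (fun s t => cw s t n) := by
  have hs : Pool.Agent.Lib_helper65.RBO.App R (fun s _ => (1 + s * (1 / 2))⁻¹) := by
    refine app_inv (app_add (app_const 1) (app_mul app_fst (app_const (1 / 2)))) ?_
    intro s t hs _
    have e : (1 + s * (1 / 2) - 1 : ℂ) = s * (1 / 2) := by ring
    rw [e, norm_mul]
    have : ‖(1 / 2 : ℂ)‖ = 1 / 2 := by simp
    rw [this]
    linarith
  have e2 : ∀ s : ℂ, (2 + s) = 2 * (1 + s * (1 / 2)) := fun s => by ring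
  induction n using Nat.strong_induction_on with
  | _ n ih =>
  match n, ih with
  | 0, _ => exact app_const 1
  | 1, _ =>
    refine app_congr hs (fun s t _ _ => ?_)
    show 2 / (2 + s) = _
    rw [e2, ← div_div, div_self two_ne_zero, one_div]
  | 2, _ =>
    refine app_congr (app_mul (app_add (app_const 1) (app_mul app_snd (app_const (1 / 2)))) hs)
      (fun s t _ _ => ?_)
    show (2 + t) / (2 + s) = _
    rw [e2 s, e2 t, mul_div_mul_left _ _ two_ne_zero, div_eq_mul_inv]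
  | (m + 3), ih =>
    have h1 := ih (m + 2) (by omega)
    have h2 := ih m (by omega)
    have hm : Pool.Agent.Lib_helper65.RBO.App R
        (fun s t => (cw s t (m + 2) + cw s t m) * (1 / 2)) :=
      app_mul (app_add h1 h2) (app_const (1 / 2))
    by_cases he : Even (m + 3)
    · refine app_congr hm (fun s t _ _ => ?_)
      show cmean (m + 3) (cw s t (m + 2)) (cw s t m) = _
      unfold cmean
      rw [if_pos he]
      ring
    · refine app_congr (app_mul (app_mul h1 h2) (app_inv hm ?_)) (fun s t _ _ => ?_)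
      · intro s t hs ht
        have g1 := h s t hs ht (m + 2)
        have g2 := h s t hs ht m
        have e : (cw s t (m + 2) + cw s t m) * (1 / 2) - 1 =
            ((cw s t (m + 2) - 1) + (cw s t m - 1)) * (1 / 2) := by ring
        rw [e, norm_mul]
        have h3 : ‖(1 / 2 : ℂ)‖ = 1 / 2 := by simp
        rw [h3]
        have := norm_add_le (cw s t (m + 2) - 1) (cw s t m - 1)
        linarith
      · show cmean (m + 3) (cw s t (m + 2)) (cw s t m) = _
        unfold cmean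
        rw [if_neg he, mul_inv, one_div, inv_inv]
        ring

/-- For real parameters the complex recursion is the real one. -/
theorem cw_real (s t : ℝ) (n : ℕ) : cw (s : ℂ) (t : ℂ) n =
    ((wsol 1 3 (v3 1 (2 / (2 + s)) ((2 + t) / (2 + s))) n : ℝ) : ℂ) := by
  induction n using Nat.strong_induction_on with
  | _ n ih =>
  match n, ih with
  | 0, _ =>
    rw [wsol_init (by norm_num)]
    simp [cw, v3]
  | 1, _ =>
    rw [wsol_init (by norm_num)]
    simp [cw, v3]
  | 2, _ =>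
    rw [wsol_init (by norm_num)]
    simp [cw, v3]
  | (m + 3), ih =>
    have h1 := ih (m + 2) (by omega)
    have h2 := ih m (by omega)
    have hw := wsol_isW one_pos (by norm_num : 1 ≤ 3)
      (v3 1 (2 / (2 + s)) ((2 + t) / (2 + s))) m
    have e : m + 3 - 1 = m + 2 := by omega
    rw [e] at hw
    rw [hw]
    show cmean (m + 3) (cw (s : ℂ) (t : ℂ) (m + 2)) (cw (s : ℂ) (t : ℂ) m) = _
    rw [h1, h2]
    unfold cmean mean
    split_ifs <;> push_cast <;> ring

theorem series13_of (hP1 : AppSeries) (hP3 : CwConv) :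
    ∃ (ε : ℝ) (c : ℕ → ℕ → ℝ), 0 < ε ∧ ε < 1 ∧
    Summable (fun p : ℕ × ℕ => |c p.1 p.2| * ε ^ (p.1 + p.2)) ∧
    ∀ s t : ℝ, |s| ≤ ε → |t| ≤ ε →
      LL 1 3 (v3 1 (2 / (2 + s)) ((2 + t) / (2 + s))) =
        ∑' p : ℕ × ℕ, c p.1 p.2 * s ^ p.1 * t ^ p.2 := by
  obtain ⟨R, C, ρ, hR, hR2, hC, hρ, hρ1, h⟩ := hP3
  -- the limit function
  have hlim : ∀ s t : ℂ, ‖s‖ ≤ R → ‖t‖ ≤ R → ∃ L : ℂ, Tendsto (cw s t) atTop (𝓝 L) := by
    intro s t hs ht
    have hc : CauchySeq (cw s t) := cauchySeq_of_le_geometric ρ C hρ1 (fun n => by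
      rw [dist_comm, dist_eq_norm]; exact (h s t hs ht n).2)
    exact cauchySeq_tendsto_of_complete hc
  obtain ⟨F, hF⟩ : ∃ F : ℂ → ℂ → ℂ, ∀ s t : ℂ, ‖s‖ ≤ R → ‖t‖ ≤ R →
      Tendsto (cw s t) atTop (𝓝 (F s t)) :=
    ⟨fun s t => limUnder atTop (cw s t), fun s t hs ht => tendsto_nhds_limUnder (hlim s t hs ht)⟩
  have hFn : ∀ s t : ℂ, ‖s‖ ≤ R → ‖t‖ ≤ R → ∀ n, ‖F s t - cw s t n‖ ≤ C * ρ ^ n / (1 - ρ) := by
    intro s t hs ht n
    have := dist_le_of_le_geometric_of_tendsto ρ C hρ1 (fun n => by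
      rw [dist_comm, dist_eq_norm]; exact (h s t hs ht n).2) (hF s t hs ht) n
    rwa [dist_comm, dist_eq_norm] at this
  have hApp : Pool.Agent.Lib_helper65.RBO.App R F := by
    apply app_lim
    intro e he
    have h1 : Tendsto (fun n : ℕ => C * ρ ^ n / (1 - ρ)) atTop (𝓝 0) := by
      have := ((tendsto_pow_atTop_nhds_zero_of_lt_one hρ.le hρ1).const_mul C).div_const (1 - ρ)
      simpa using this
    obtain ⟨n, hn⟩ := (h1.eventually (gt_mem_nhds he)).exists
    exact ⟨fun s t => cw s t n, app_cw hR2 (fun s t hs ht n => (h s t hs ht n).1) n,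
      fun s t hs ht => (hFn s t hs ht n).trans hn.le⟩
  obtain ⟨c, hc⟩ := hP1 hR hApp
  obtain ⟨hsum, heq⟩ := hc (R / 2) (by linarith) (by linarith)
  refine ⟨R / 2, fun i j => (c i j).re, by linarith, by linarith, ?_, ?_⟩
  · refine Summable.of_nonneg_of_le (fun p => by positivity) (fun p => ?_) hsum
    exact mul_le_mul_of_nonneg_right (Complex.abs_re_le_norm _) (by positivity)
  · intro s t hs ht
    have hs' : ‖(s : ℂ)‖ ≤ R / 2 := by rw [Complex.norm_real]; exact hs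
    have ht' : ‖(t : ℂ)‖ ≤ R / 2 := by rw [Complex.norm_real]; exact ht
    have h1 := hF s t (by linarith) (by linarith)
    have hs2 : -(1 / 4) ≤ s := by have := (abs_le.1 hs).1; linarith
    have ht2 : -(1 / 4) ≤ t := by have := (abs_le.1 ht).1; linarith
    have hvp : ∀ n < 3, 0 < v3 1 (2 / (2 + s)) ((2 + t) / (2 + s)) n := by
      intro n _
      have p1 : 0 < 2 + s := by linarith
      have p2 : 0 < 2 + t := by linarith
      unfold v3
      split_ifs
      · exact one_pos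
      · positivity
      · positivity
    have h2 := LL_tendsto one_pos (by norm_num : 1 ≤ 3) (by decide : Nat.Coprime 1 3) hvp
    have h3 : Tendsto (cw (s : ℂ) (t : ℂ)) atTop
        (𝓝 ((LL 1 3 (v3 1 (2 / (2 + s)) ((2 + t) / (2 + s))) : ℝ) : ℂ)) := by
      have h4 := (Complex.continuous_ofReal.tendsto _).comp h2
      refine h4.congr (fun n => ?_)
      rw [Function.comp_apply, cw_real]
    have h5 : F s t = ((LL 1 3 (v3 1 (2 / (2 + s)) ((2 + t) / (2 + s))) : ℝ) : ℂ) :=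
      tendsto_nhds_unique h1 h3
    rw [heq s t hs' ht'] at h5
    have h6 := congrArg Complex.re h5
    rw [Complex.ofReal_re] at h6
    rw [← h6]
    have hsm : Summable (fun p : ℕ × ℕ => c p.1 p.2 * (s : ℂ) ^ p.1 * (t : ℂ) ^ p.2) := by
      refine Summable.of_norm_bounded hsum (fun p => ?_)
      rw [norm_mul, norm_mul, norm_pow, norm_pow, pow_add, mul_assoc]
      exact mul_le_mul_of_nonneg_left (mul_le_mul (pow_le_pow_left₀ (norm_nonneg _) hs' _)
        (pow_le_pow_left₀ (norm_nonneg _) ht' _) (by positivity) (by positivity)) (norm_nonneg _)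
    rw [Complex.re_tsum hsm]
    apply tsum_congr
    intro p
    have e : c p.1 p.2 * (s : ℂ) ^ p.1 * (t : ℂ) ^ p.2 =
        c p.1 p.2 * ((s ^ p.1 * t ^ p.2 : ℝ) : ℂ) := by push_cast; ring
    rw [e, Complex.re_mul_ofReal]
    ring

end Pool.Agent.Lib_helper72.RBO
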