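import Pool.Agent.Lib_helper65.RBO.Defs5
import Pool.Agent.Lib_helper14.RBO.App

/-!
# The class `App` (bivariate polynomials) from the general class
-/

namespace Pool.Agent.Lib_helper72.RBO

open Filter Topology
open Pool.Agent.Lib_helper65.RBO

/-- The ring of polynomial functions of two variables. -/
noncomputable def SS : Subring (ℂ × ℂ → ℂ) :=
  (RingHom.pi (fun p : ℂ × ℂ => Polynomial.evalEvalRingHom p.1 p.2)).range

/-- The closed polydisc. -/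
def KK (R : ℝ) : Set (ℂ × ℂ) := {p | ‖p.1‖ ≤ R ∧ ‖p.2‖ ≤ R}

theorem mem_SS {F : ℂ × ℂ → ℂ} : F ∈ SS ↔ ∃ P : Polynomial (Polynomial ℂ),
    ∀ p : ℂ × ℂ, Polynomial.evalEval p.1 p.2 P = F p := by
  unfold SS
  rw [RingHom.mem_range]
  constructor
  · rintro ⟨P, rfl⟩
    exact ⟨P, fun p => rfl⟩
  · rintro ⟨P, hP⟩
    exact ⟨P, funext fun p => hP p⟩

theorem app_iff {R : ℝ} {F : ℂ → ℂ → ℂ} : Pool.Agent.Lib_helper65.RBO.App R F ↔
    Pool.Agent.Lib_helper14.RBO.App (KK R) SS (fun p => F p.1 p.2) := by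
  constructor
  · intro h e he
    obtain ⟨P, hP⟩ := h e he
    exact ⟨fun p => Polynomial.evalEval p.1 p.2 P, mem_SS.2 ⟨P, fun p => rfl⟩,
      fun z hz => hP z.1 z.2 hz.1 hz.2⟩
  · intro h e he
    obtain ⟨Q, hQ, h1⟩ := h e he
    obtain ⟨P, hP⟩ := mem_SS.1 hQ
    exact ⟨P, fun s t hs ht => by
      have := h1 (s, t) ⟨hs, ht⟩
      rw [← hP] at this
      exact this⟩

theorem SS_bdd (R : ℝ) : ∀ P ∈ SS, ∃ C : ℝ, ∀ z ∈ KK R, ‖P z‖ ≤ C := by
  intro F hF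
  obtain ⟨P, hP⟩ := mem_SS.1 hF
  suffices h : ∃ C : ℝ, ∀ z ∈ KK R, ‖Polynomial.evalEval z.1 z.2 P‖ ≤ C by
    obtain ⟨C, hC⟩ := h
    exact ⟨C, fun z hz => by rw [← hP]; exact hC z hz⟩
  clear hP hF
  induction P using Polynomial.induction_on' with
  | add p q hp hq =>
    obtain ⟨C, hC⟩ := hp
    obtain ⟨D, hD⟩ := hq
    refine ⟨C + D, fun z hz => ?_⟩
    rw [Polynomial.evalEval_add]
    exact (norm_add_le _ _).trans (add_le_add (hC z hz) (hD z hz))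
  | monomial n a =>
    obtain ⟨C, hC⟩ := (isCompact_closedBall (0 : ℂ) R).exists_bound_of_continuousOn
      (f := fun x => Polynomial.eval x a) a.continuous.continuousOn
    refine ⟨|C| * |R| ^ n, fun z hz => ?_⟩
    have e : Polynomial.evalEval z.1 z.2 (Polynomial.monomial n a) =
        Polynomial.eval z.1 a * z.2 ^ n := by
      rw [← Polynomial.C_mul_X_pow_eq_monomial, Polynomial.evalEval_mul,
        Polynomial.evalEval_C, Polynomial.evalEval_pow, Polynomial.evalEval_X]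
    rw [e, norm_mul, norm_pow]
    have h1 := hC z.1 (by rw [mem_closedBall_zero_iff]; exact hz.1)
    exact mul_le_mul (h1.trans (le_abs_self C))
      (pow_le_pow_left₀ (norm_nonneg _) (hz.2.trans (le_abs_self R)) n) (by positivity)
      (abs_nonneg _)

theorem app_congr {R : ℝ} {F G : ℂ → ℂ → ℂ} (hF : Pool.Agent.Lib_helper65.RBO.App R F)
    (h : ∀ s t : ℂ, ‖s‖ ≤ R → ‖t‖ ≤ R → G s t = F s t) :
    Pool.Agent.Lib_helper65.RBO.App R G := fun e he => by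
  obtain ⟨P, hP⟩ := hF e he
  exact ⟨P, fun s t hs ht => by rw [h s t hs ht]; exact hP s t hs ht⟩

theorem app_const {R : ℝ} (z : ℂ) : Pool.Agent.Lib_helper65.RBO.App R (fun _ _ => z) :=
  fun e he => ⟨Polynomial.C (Polynomial.C z), fun s t _ _ => by
    rw [Polynomial.evalEval_C, Polynomial.eval_C, sub_self, norm_zero]; exact he.le⟩

theorem app_fst {R : ℝ} : Pool.Agent.Lib_helper65.RBO.App R (fun s _ => s) :=
  fun e he => ⟨Polynomial.C Polynomial.X, fun s t _ _ => by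
    rw [Polynomial.evalEval_C, Polynomial.eval_X, sub_self, norm_zero]; exact he.le⟩

theorem app_snd {R : ℝ} : Pool.Agent.Lib_helper65.RBO.App R (fun _ t => t) :=
  fun e he => ⟨Polynomial.X, fun s t _ _ => by
    rw [Polynomial.evalEval_X, sub_self, norm_zero]; exact he.le⟩

theorem app_add {R : ℝ} {F G : ℂ → ℂ → ℂ} (hF : Pool.Agent.Lib_helper65.RBO.App R F)
    (hG : Pool.Agent.Lib_helper65.RBO.App R G) :
    Pool.Agent.Lib_helper65.RBO.App R (fun s t => F s t + G s t) :=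
  app_iff.2 ((app_iff.1 hF).add (app_iff.1 hG))

theorem app_mul {R : ℝ} {F G : ℂ → ℂ → ℂ} (hF : Pool.Agent.Lib_helper65.RBO.App R F)
    (hG : Pool.Agent.Lib_helper65.RBO.App R G) :
    Pool.Agent.Lib_helper65.RBO.App R (fun s t => F s t * G s t) :=
  app_iff.2 ((app_iff.1 hF).mul (SS_bdd R) (app_iff.1 hG))

theorem app_inv {R : ℝ} {F : ℂ → ℂ → ℂ} (hF : Pool.Agent.Lib_helper65.RBO.App R F)
    (h : ∀ s t : ℂ, ‖s‖ ≤ R → ‖t‖ ≤ R → ‖F s t - 1‖ ≤ 1 / 2) :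
    Pool.Agent.Lib_helper65.RBO.App R (fun s t => (F s t)⁻¹) :=
  app_iff.2 ((app_iff.1 hF).inv (SS_bdd R) (fun z hz => h z.1 z.2 hz.1 hz.2))

theorem app_lim {R : ℝ} {F : ℂ → ℂ → ℂ} (h : ∀ ε > 0, ∃ G : ℂ → ℂ → ℂ,
    Pool.Agent.Lib_helper65.RBO.App R G ∧
    ∀ s t : ℂ, ‖s‖ ≤ R → ‖t‖ ≤ R → ‖F s t - G s t‖ ≤ ε) :
    Pool.Agent.Lib_helper65.RBO.App R F := by
  refine app_iff.2 (Pool.Agent.Lib_helper14.RBO.App.lim (fun e he => ?_))
  obtain ⟨G, hG, h1⟩ := h e he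
  exact ⟨fun p => G p.1 p.2, app_iff.1 hG, fun z hz => h1 z.1 z.2 hz.1 hz.2⟩

end Pool.Agent.Lib_helper72.RBO
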