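import Pool.Agent.Lib_helper72.RBO.Def5

/-!
# Assembly: a definable subset of the line which is not a finite union of intervals
-/

namespace Pool.Agent.Lib_helper72.RBO

open Filter Topology
open Pool.Agent.Lib_helper65.RB
open Pool.Agent.Lib_helper65.RBO

/-- BLOCK FIN. -/
theorem not_finUnion {Z : Set ℝ} (h1 : ∀ δ > 0, ∃ t ∈ Z, 0 < t ∧ t < δ)
    (h2 : ∀ δ > 0, ∃ t, t ∉ Z ∧ 0 < t ∧ t < δ) : ¬ FinUnionIntervals Z := by
  rintro ⟨F, hF, hZ⟩
  have key : ∃ I ∈ F, ∀ δ : ℝ, 0 < δ → ∃ t ∈ I, 0 < t ∧ t < δ := by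
    by_contra hcon
    push Not at hcon
    have h3 : ∀ I : Set ℝ, ∃ δ : ℝ, 0 < δ ∧ (I ∈ F → ∀ t ∈ I, 0 < t → δ ≤ t) := by
      intro I
      by_cases hI : I ∈ F
      · obtain ⟨δ, hδ, h⟩ := hcon I hI
        exact ⟨δ, hδ, fun _ => h⟩
      · exact ⟨1, one_pos, fun h => absurd h hI⟩
    choose g hg hg2 using h3
    have h4 : ∃ δ : ℝ, 0 < δ ∧ ∀ I ∈ F, δ ≤ g I := by
      clear h1 h2 hF hZ hcon hg2
      classical
      induction F using Finset.induction_on with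
      | empty => exact ⟨1, one_pos, fun I hI => absurd hI (Finset.notMem_empty I)⟩
      | insert J F _ ih =>
        obtain ⟨δ, hδ, h⟩ := ih
        refine ⟨min δ (g J), lt_min hδ (hg J), fun I hI => ?_⟩
        rcases Finset.mem_insert.1 hI with rfl | hI
        · exact min_le_right _ _
        · exact (min_le_left _ _).trans (h I hI)
    obtain ⟨δ, hδ, h5⟩ := h4
    obtain ⟨t, ht, ht0, htδ⟩ := h1 δ hδ
    rw [hZ, Set.mem_iUnion₂] at ht
    obtain ⟨I, hI, htI⟩ := ht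
    have := hg2 I hI t htI ht0
    have := h5 I hI
    linarith
  obtain ⟨I, hI, hIδ⟩ := key
  obtain ⟨t1, ht1, ht10, _⟩ := hIδ 1 one_pos
  obtain ⟨s, hs, hs0, hs1⟩ := h2 t1 ht10
  apply hs
  obtain ⟨t2, ht2, ht20, ht2s⟩ := hIδ s hs0
  rw [hZ, Set.mem_iUnion₂]
  exact ⟨I, hI, (hF I hI).out ht2 ht1 ⟨ht2s.le, hs1.le⟩⟩

theorem fS_gt {x : ℝ} (hx : 1 < x) : 1 < fS x := by
  unfold fS
  rw [lt_div_iff₀ (by linarith)]
  nlinarith

theorem fS_iter_gt {x : ℝ} (hx : 1 < x) (n : ℕ) : 1 < fS^[n] x := by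
  induction n with
  | zero => exact hx
  | succ n ih => rw [Function.iterate_succ_apply']; exact fS_gt ih

/-- The two-cell map in terms of the sum; the difference is invariant. -/
theorem rmap_iter {lam x : ℝ} (hlam : 0 < lam) (hx : 1 < x) (n : ℕ) :
    rmap^[n] (lam * ((x - 1) / 2), lam * ((x + 1) / 2)) =
      (lam * ((fS^[n] x - 1) / 2), lam * ((fS^[n] x + 1) / 2)) := by
  induction n with
  | zero => rfl
  | succ n ih =>
    rw [Function.iterate_succ_apply', Function.iterate_succ_apply', ih]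
    have h := fS_iter_gt hx n
    generalize fS^[n] x = y at h
    have hy : (0 : ℝ) < y := by linarith
    unfold Pool.Agent.Lib_helper65.RBO.rmap fS
    have e : lam * ((y - 1) / 2) + lam * ((y + 1) / 2) = lam * y := by ring
    simp only [e]
    ext
    · simp only
      field_simp
      ring
    · simp only
      field_simp
      ring

/-- The oscillating set is not a finite union of intervals. -/
theorem ZZ_osc {a b : ℕ}
    (hnum : ∀ δ : ℝ, 0 < δ →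
      (∃ e, 0 < e ∧ e < δ ∧ ∃ n : ℕ, √(3 / 2) * (fS^[n] (1 + e) + 1) < fS^[n] (1 + √2 * e) - 1) ∧
      (∃ e, 0 < e ∧ e < δ ∧ ∃ n : ℕ, fS^[n] (1 + √2 * e) + 1 < √(3 / 2) * (fS^[n] (1 + e) - 1)))
    (hcmp : ∀ {A B A' B' : ℝ}, 0 < A → 0 < B → 0 < A' → 0 < B' → ∀ n : ℕ,
      (rmap^[n] (A, B)).1 < (rmap^[n] (A', B')).1 →
      (rmap^[n] (A, B)).2 < (rmap^[n] (A', B')).2 →
      ∃ t0 : ℝ, 0 < t0 ∧ ∀ t, 0 < t → t < t0 →
        LL a b (runv a b t A B) < LL a b (runv a b t A' B')) :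
    ¬ FinUnionIntervals (ZZ a b) := by
  have hl : (0 : ℝ) < √(3 / 2) := by positivity
  have hs2 : (0 : ℝ) < √2 := by positivity
  have r1 : ∀ (e : ℝ), 0 < e → ∀ n : ℕ,
      rmap^[n] (√(3 / 2) * (e / 2), √(3 / 2) * (1 + e / 2)) =
      (√(3 / 2) * ((fS^[n] (1 + e) - 1) / 2), √(3 / 2) * ((fS^[n] (1 + e) + 1) / 2)) := by
    intro e he n
    rw [← rmap_iter hl (by linarith : (1 : ℝ) < 1 + e) n]
    congr 2 <;> ring
  have r2 : ∀ (e : ℝ), 0 < e → ∀ n : ℕ,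
      rmap^[n] (√2 * e / 2, 1 + √2 * e / 2) =
      (1 * ((fS^[n] (1 + √2 * e) - 1) / 2), 1 * ((fS^[n] (1 + √2 * e) + 1) / 2)) := by
    intro e he n
    have : 0 < √2 * e := by positivity
    rw [← rmap_iter one_pos (by linarith : (1 : ℝ) < 1 + √2 * e) n]
    congr 2 <;> ring
  apply not_finUnion
  · intro δ hδ
    obtain ⟨e, he, heδ, n, hn⟩ := (hnum δ hδ).1
    refine ⟨e, ⟨he, ?_⟩, he, heδ⟩
    refine hcmp (by positivity) (by positivity) (by positivity) (by positivity) n ?_ ?_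
    · rw [r1 e he n, r2 e he n]
      simp only
      nlinarith
    · rw [r1 e he n, r2 e he n]
      simp only
      nlinarith
  · intro δ hδ
    obtain ⟨e, he, heδ, n, hn⟩ := (hnum δ hδ).2
    refine ⟨e, ?_, he, heδ⟩
    rintro ⟨_, t0, ht0, h⟩
    obtain ⟨t1, ht1, h'⟩ := hcmp (A := √2 * e / 2) (B := 1 + √2 * e / 2)
      (A' := √(3 / 2) * (e / 2)) (B' := √(3 / 2) * (1 + e / 2))
      (by positivity) (by positivity) (by positivity) (by positivity) n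
      (by
        rw [r1 e he n, r2 e he n]
        simp only
        nlinarith)
      (by
        rw [r1 e he n, r2 e he n]
        simp only
        nlinarith)
    have hm : 0 < min t0 t1 / 2 := by have := lt_min ht0 ht1; linarith
    have h3 := h _ hm (by have := min_le_left t0 t1; have := lt_min ht0 ht1; linarith)
    have h4 := h' _ hm (by have := min_le_right t0 t1; have := lt_min ht0 ht1; linarith)
    linarith

/-- The case of the reduced pair `(1, 5)`. -/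
theorem case5 {d k l : ℕ} (hd : 0 < d) (hk : k + 1 = d * 1) (hl : l + 1 = d * 5) :
    ∃ Z : Set ℝ, DefinableFrom (BasinM k l l) Z ∧ ¬ FinUnionIntervals Z := by
  have hc15 : Nat.Coprime 1 5 := by decide
  obtain ⟨M1, M2, hM2, hM, h1, h2⟩ := Pool.Agent.Lib_helper35.RB.osc
  have hM1 : M2 < M1 := by nlinarith
  have hvv : ∀ t, 0 < t → ∀ n < 5, 0 < v15 t n := fun t ht n _ => v15_pos ht n
  have hsol : ∀ t, 0 < t → IsW 1 5 (wsol 1 5 (v15 t)) ∧ wsol 1 5 (v15 t) 0 = 2 ∧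
      wsol 1 5 (v15 t) 1 = 2 ∧ wsol 1 5 (v15 t) 2 = 1 ∧ wsol 1 5 (v15 t) 3 = t ∧
      wsol 1 5 (v15 t) 4 = t ∧ Tendsto (wsol 1 5 (v15 t)) atTop (𝓝 (LL 1 5 (v15 t))) := by
    intro t ht
    refine ⟨wsol_isW one_pos (by norm_num) _, ?_, ?_, ?_, ?_, ?_,
      LL_tendsto one_pos (by norm_num) hc15 (hvv t ht)⟩
    all_goals rw [wsol_init (by norm_num)]; simp [v15]
  refine ⟨_, def5 hd hk hl M2, not_finUnion ?_ ?_⟩
  · intro δ hδ
    obtain ⟨t, ht0, htδ, ht1, h⟩ := h1 δ hδ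
    obtain ⟨s0, s1, s2, s3, s4, s5, s6⟩ := hsol t ht0
    have hL := h _ _ s0 s1 s2 s3 s4 s5 s6
    have hst : 0 < √t := Real.sqrt_pos.2 ht0
    exact ⟨t, ⟨ht0, by nlinarith⟩, ht0, htδ⟩
  · intro δ hδ
    obtain ⟨t, ht0, htδ, ht1, h⟩ := h2 δ hδ
    obtain ⟨s0, s1, s2, s3, s4, s5, s6⟩ := hsol t ht0
    have hL := h _ _ s0 s1 s2 s3 s4 s5 s6
    exact ⟨t, fun h' => absurd h'.2 (not_lt.2 hL), ht0, htδ⟩

/-- Statement of block NUM. -/
def NumOsc : Prop := ∀ δ : ℝ, 0 < δ →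
    (∃ e, 0 < e ∧ e < δ ∧ ∃ n : ℕ, √(3 / 2) * (fS^[n] (1 + e) + 1) < fS^[n] (1 + √2 * e) - 1) ∧
    (∃ e, 0 < e ∧ e < δ ∧ ∃ n : ℕ, fS^[n] (1 + √2 * e) + 1 < √(3 / 2) * (fS^[n] (1 + e) - 1))

/-- Statement of block CMP. -/
def Cmp : Prop := ∀ {a b : ℕ}, Odd a → Odd b → a < b → Nat.Coprime a b → 8 ≤ a + b →
    ∀ {A B A' B' : ℝ}, 0 < A → 0 < B → 0 < A' → 0 < B' → ∀ n : ℕ,
    (rmap^[n] (A, B)).1 < (rmap^[n] (A', B')).1 → (rmap^[n] (A, B)).2 < (rmap^[n] (A', B')).2 →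
    ∃ t0 : ℝ, 0 < t0 ∧ ∀ t, 0 < t → t < t0 →
      LL a b (runv a b t A B) < LL a b (runv a b t A' B')

/-- Statement of block DEF8. -/
def Def8 : Prop := ∀ {a' b' d k l : ℕ}, Odd a' → Odd b' → a' < b' → Nat.Coprime a' b' → 0 < d →
    k + 1 = d * a' → l + 1 = d * b' → 8 ≤ a' + b' → DefinableFrom (BasinM k l l) (ZZ a' b')

theorem case_lt (hnum : NumOsc) (hcmp : Cmp) (hdef : Def8) {k l : ℕ} (hkl : k < l)
    (hv : padicValNat 2 (k + 1) = padicValNat 2 (l + 1)) (h2 : l + 1 ≠ 3 * (k + 1)) :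
    ∃ Z : Set ℝ, DefinableFrom (BasinM k l l) Z ∧ ¬ FinUnionIntervals Z := by
  obtain ⟨a', b', ha, hb, hab, hc, hd, hk, hl⟩ := reduced_pair hkl hv
  by_cases hN : 8 ≤ a' + b'
  · exact ⟨ZZ a' b', hdef ha hb hab hc hd hk hl hN,
      ZZ_osc hnum (fun h1 h2 h3 h4 => hcmp ha hb hab hc hN h1 h2 h3 h4)⟩
  · have hcase : (a' = 1 ∧ b' = 3) ∨ (a' = 1 ∧ b' = 5) := by
      have ha' : a' = 1 ∨ 2 < a' := by
        obtain ⟨i, rfl⟩ := ha
        omega
      rcases ha' with rfl | ha'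
      · obtain ⟨j, rfl⟩ := hb
        omega
      · exfalso
        obtain ⟨i, rfl⟩ := ha
        obtain ⟨j, rfl⟩ := hb
        omega
    rcases hcase with ⟨rfl, rfl⟩ | ⟨rfl, rfl⟩
    · exfalso
      apply h2
      omega
    · exact case5 hd hk hl

theorem main4_of (hnum : NumOsc) (hcmp : Cmp) (hdef : Def8) (k l : ℕ) (hkl : k ≠ l)
    (hv : padicValNat 2 (k + 1) = padicValNat 2 (l + 1))
    (h1 : k + 1 ≠ 3 * (l + 1)) (h2 : l + 1 ≠ 3 * (k + 1)) :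
    ∃ Z : Set ℝ, DefinableFrom (Basin k l) Z ∧ ¬ FinUnionIntervals Z := by
  unfold Basin
  obtain ⟨m, hm⟩ : ∃ m, m = max k l := ⟨_, rfl⟩
  rw [← hm]
  rcases Nat.lt_or_gt_of_ne hkl with h | h
  · obtain rfl : m = l := by omega
    exact case_lt hnum hcmp hdef h hv h2
  · obtain rfl : m = k := by omega
    rw [BasinM_symm]
    exact case_lt hnum hcmp hdef h hv.symm h1

end Pool.Agent.Lib_helper72.RBO
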