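import Pool.Agent.Lib_helper72.RBO.FoRed
import Pool.Agent.Lib_helper65.RB.R15

/-!
# Definability of the oscillating set for the reduced pair `(1, 5)`
-/

namespace Pool.Agent.Lib_helper72.RBO

open Pool.Agent.Lib_helper65.RB
open Pool.Agent.Lib_helper65.RBO

theorem red5_iff {t c d T : ℝ} (ht : 0 < t) (hc : 0 < c) (hcd : c * d = 1) (htT : t * T = 1)
    (y : Fin 5 → ℝ) (h0 : y 0 = 2 * c) (h1 : y 1 = d) (h2 : y 2 = c) (h3 : y 3 = 2 * d * T)
    (h4 : y 4 = c * t) : y ∈ Red 1 5 ↔ c * LL 1 5 (v15 t) = √2 := by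
  have hd : 0 < d := by
    rcases lt_trichotomy 0 d with h | h | h
    · exact h
    · rw [← h] at hcd; simp at hcd
    · nlinarith
  have hT : 0 < T := by
    rcases lt_trichotomy 0 T with h | h | h
    · exact h
    · rw [← h] at htT; simp at htT
    · nlinarith
  have hd' : d = 1 / c := by field_simp; linarith
  have hT' : T = 1 / t := by field_simp; linarith
  have hpos : ∀ i, 0 < y i := by
    intro i
    fin_cases i
    · show 0 < y 0
      rw [h0]; positivity
    · show 0 < y 1
      rw [h1]; positivity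
    · show 0 < y 2
      rw [h2]; positivity
    · show 0 < y 3
      rw [h3]; positivity
    · show 0 < y 4
      rw [h4]; positivity
  have hc15 : Nat.Coprime 1 5 := by decide
  have hL : LL 1 5 (ww y) = c * LL 1 5 (v15 t) := by
    rw [← LL_smul one_pos (by norm_num) hc15 (fun n _ => v15_pos ht n) hc]
    apply LL_congr one_pos (by norm_num) hc15 (fun n _ => ww_pos hpos n)
    intro n hn
    unfold ww
    rw [dif_pos hn]
    interval_cases n
    · show (if Even 0 then y 0 else _) = _
      rw [if_pos (by decide), h0]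
      simp [v15]; ring
    · show (if Even 1 then _ else 2 / y 1) = _
      rw [if_neg (by decide), h1, hd']
      simp [v15]; ring
    · show (if Even 2 then y 2 else _) = _
      rw [if_pos (by decide), h2]
      simp [v15]
    · show (if Even 3 then _ else 2 / y 3) = _
      rw [if_neg (by decide), h3, hd', hT']
      simp [v15]
      field_simp
    · show (if Even 4 then y 4 else _) = _
      rw [if_pos (by decide), h4]
      simp [v15]
  constructor
  · rintro ⟨_, h⟩
    rw [← hL]; exact h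
  · intro h
    exact ⟨hpos, by rw [hL]; exact h⟩

theorem upd_vals (x : ℕ → ℝ) (s c d T : ℝ) :
    Function.update (Function.update (Function.update (Function.update x 1 s) 2 c) 3 d) 4 T 0
      = x 0 ∧
    Function.update (Function.update (Function.update (Function.update x 1 s) 2 c) 3 d) 4 T 1
      = s ∧
    Function.update (Function.update (Function.update (Function.update x 1 s) 2 c) 3 d) 4 T 2
      = c ∧
    Function.update (Function.update (Function.update (Function.update x 1 s) 2 c) 3 d) 4 T 3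
      = d ∧
    Function.update (Function.update (Function.update (Function.update x 1 s) 2 c) 3 d) 4 T 4
      = T := by
  refine ⟨?_, ?_, ?_, ?_, ?_⟩ <;> simp

/-- BLOCK DEF5. -/
theorem def5 {d k l : ℕ} (hd : 0 < d) (hk : k + 1 = d * 1) (hl : l + 1 = d * 5) (M : ℝ) :
    DefinableFrom (BasinM k l l) {t | 0 < t ∧ M * √t < LL 1 5 (v15 t)} := by
  have hc15 : Nat.Coprime 1 5 := by decide
  obtain ⟨G, hG⟩ : ∃ G : Fin 5 → MvPolynomial ℕ ℝ, G = ![MvPolynomial.C 2 * MvPolynomial.X 2,
    MvPolynomial.X 3, MvPolynomial.X 2, MvPolynomial.C 2 * MvPolynomial.X 3 * MvPolynomial.X 4,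
    MvPolynomial.X 2 * MvPolynomial.X 0] := ⟨_, rfl⟩
  have hR := fo_red (by decide : Odd 1) (by decide : Odd 5) (by norm_num) hc15 hd hk hl G
  have h1 := FO.pos (B := BasinM k l l) (MvPolynomial.X 1)
  have h2 := FO.pos (B := BasinM k l l) (MvPolynomial.X 2)
  have h3 := fo_eq (BasinM k l l) (MvPolynomial.X 1 ^ 2 - MvPolynomial.X 0)
  have h4 := fo_eq (BasinM k l l) (MvPolynomial.X 2 * MvPolynomial.X 3 - MvPolynomial.C 1)
  have h5 := fo_eq (BasinM k l l) (MvPolynomial.X 0 * MvPolynomial.X 4 - MvPolynomial.C 1)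
  have h6 := FO.pos (B := BasinM k l l)
    (MvPolynomial.C (√2) - MvPolynomial.C M * MvPolynomial.X 1 * MvPolynomial.X 2)
  have h := FO.ex 1 (FO.ex 2 (FO.ex 3 (FO.ex 4
    (h1.inter (h2.inter (h3.inter (h4.inter (h5.inter (h6.inter hR)))))))))
  have hred : ∀ z : ℕ → ℝ, 0 < z 0 → 0 < z 2 → z 2 * z 3 = 1 → z 0 * z 4 = 1 →
      ((fun j => MvPolynomial.eval z (G j)) ∈ Red 1 5 ↔ z 2 * LL 1 5 (v15 (z 0)) = √2) := by
    intro z z0 z2 z23 z04
    apply red5_iff z0 z2 z23 z04 <;> simp [hG]
  unfold DefinableFrom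
  convert h using 1
  ext x
  simp only [Set.mem_ofPred_eq, Set.mem_inter_iff, map_sub, map_mul, map_pow, MvPolynomial.eval_X,
    MvPolynomial.eval_C]
  have hs2 : (0 : ℝ) < √2 := by positivity
  constructor
  · rintro ⟨ht, hM⟩
    have hLp : 0 < LL 1 5 (v15 (x 0)) :=
      LL_pos one_pos (by norm_num) hc15 (fun n _ => v15_pos ht n)
    have hst : 0 < √(x 0) := Real.sqrt_pos.2 ht
    refine ⟨√(x 0), √2 / LL 1 5 (v15 (x 0)), LL 1 5 (v15 (x 0)) / √2, 1 / x 0, ?_⟩
    obtain ⟨e0, e1, e2, e3, e4⟩ := upd_vals x (√(x 0)) (√2 / LL 1 5 (v15 (x 0)))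
      (LL 1 5 (v15 (x 0)) / √2) (1 / x 0)
    generalize Function.update (Function.update (Function.update (Function.update x 1 (√(x 0))) 2
      (√2 / LL 1 5 (v15 (x 0)))) 3 (LL 1 5 (v15 (x 0)) / √2)) 4 (1 / x 0) = z at *
    have q2 : 0 < z 2 := by rw [e2]; positivity
    have q23 : z 2 * z 3 = 1 := by rw [e2, e3]; field_simp
    have q04 : z 0 * z 4 = 1 := by rw [e0, e4]; field_simp
    refine ⟨by rw [e1]; exact hst, q2, ?_, by rw [q23]; ring, by rw [q04]; ring, ?_, ?_⟩
    · rw [e1, e0, Real.sq_sqrt ht.le]; ring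
    · rw [e1, e2, sub_pos, mul_div_assoc', div_lt_iff₀ hLp]
      nlinarith
    · rw [hred z (by rw [e0]; exact ht) q2 q23 q04, e2, e0]
      field_simp
  · rintro ⟨s, c, d', T, h⟩
    obtain ⟨e0, e1, e2, e3, e4⟩ := upd_vals x s c d' T
    generalize Function.update (Function.update (Function.update (Function.update x 1 s) 2
      c) 3 d') 4 T = z at *
    obtain ⟨g1, g2, g3, g4, g5, g6, g7⟩ := h
    have q0 : 0 < z 0 := by nlinarith
    have hLp : 0 < LL 1 5 (v15 (z 0)) :=
      LL_pos one_pos (by norm_num) hc15 (fun n _ => v15_pos q0 n)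
    rw [hred z q0 g2 (by linarith) (by linarith)] at g7
    rw [← e0]
    refine ⟨q0, ?_⟩
    have hz : √(z 0) = z 1 := by
      rw [show z 0 = z 1 ^ 2 by linarith, Real.sqrt_sq g1.le]
    rw [hz]
    have : z 2 * (M * z 1) < z 2 * LL 1 5 (v15 (z 0)) := by rw [g7]; nlinarith
    exact lt_of_mul_lt_mul_left this g2.le

end Pool.Agent.Lib_helper72.RBO
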