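import Pool.Agent.Lib_helper65.RBO.Defs6

/-!
# The equations which determine the limit functional near `(1, …, 1)`
-/

namespace Pool.Agent.Lib_helper72.RBO

/-- Two equations for a function `G` near `(1, …, 1)`: `G (t, …, t) = t`, and
`G (s_0, …, s_{b-1}) G (1/s_1, …, 1/s_b) = 1` if `2 / s_b = 1 / s_{b-a} + 1 / s_0`. -/
def Determining (a b : ℕ) (ε : ℝ) (G : (Fin b → ℝ) → ℝ) : Prop :=
  (∀ t : ℝ, |t - 1| ≤ ε → G (fun _ => t) = t) ∧
  ∀ s : ℕ → ℝ, (∀ i < b, |s i - 1| ≤ ε / 2) → 2 / s b = 1 / s (b - a) + 1 / s 0 →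
    G (fun i => s i) * G (fun i => 1 / s (i + 1)) = 1

end Pool.Agent.Lib_helper72.RBO
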