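import Pool.Agent.Lib_helper65.RBO.Defs

/-!
# First-order definability: equalities and the reduced basin
-/

namespace Pool.Agent.Lib_helper72.RBO

open Pool.Agent.Lib_helper65.RB
open Pool.Agent.Lib_helper65.RBO

theorem fo_eq {n : ℕ} (B : Set (Fin n → ℝ)) (p : MvPolynomial ℕ ℝ) :
    FO B {x | MvPolynomial.eval x p = 0} := by
  have h := ((FO.pos (B := B) p).compl).inter ((FO.pos (B := B) (-p)).compl)
  have e : {x : ℕ → ℝ | MvPolynomial.eval x p = 0} =
      {x : ℕ → ℝ | 0 < MvPolynomial.eval x p}ᶜ ∩ {x : ℕ → ℝ | 0 < MvPolynomial.eval x (-p)}ᶜ := by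
    ext x
    simp only [Set.mem_ofPred_eq, Set.mem_inter_iff, Set.mem_compl_iff, map_neg, not_lt]
    constructor
    · intro h; constructor <;> linarith
    · rintro ⟨h1, h2⟩; linarith
  rw [e]; exact h

theorem fo_union {n : ℕ} {B : Set (Fin n → ℝ)} {s t : Set (ℕ → ℝ)} (hs : FO B s) (ht : FO B t) :
    FO B (s ∪ t) := by
  have h := (hs.compl.inter ht.compl).compl
  rwa [Set.compl_inter, compl_compl, compl_compl] at h

/-- Universal quantifier. -/
theorem fo_all {n : ℕ} {B : Set (Fin n → ℝ)} (i : ℕ) {s : Set (ℕ → ℝ)} (hs : FO B s) :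
    FO B {x | ∀ y : ℝ, Function.update x i y ∈ s} := by
  have h := (FO.ex i hs.compl).compl
  have e : {x : ℕ → ℝ | ∀ y : ℝ, Function.update x i y ∈ s} =
      {x : ℕ → ℝ | ∃ y : ℝ, Function.update x i y ∈ sᶜ}ᶜ := by
    ext x
    simp
  rw [e]; exact h

theorem fo_red {a' b' d k l : ℕ} (ha : Odd a') (hb : Odd b') (hab : a' < b')
    (hc : Nat.Coprime a' b') (hd : 0 < d) (hk : k + 1 = d * a') (hl : l + 1 = d * b')
    (G : Fin b' → MvPolynomial ℕ ℝ) :
    FO (BasinM k l l) {x | (fun j => MvPolynomial.eval x (G j)) ∈ Red a' b'} := by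
  have hs := slice_eq ha hb hab hc hd hk hl (fun i => if h : d ∣ (i : ℕ) then
      MvPolynomial.X ⟨(i : ℕ) / d, div_lt_aux i.2 hl⟩ else MvPolynomial.C (√2)) (fun i => rfl)
  have h := FO.mem (B := BasinM k l l) (fun i : Fin (l + 1) => if h : d ∣ (i : ℕ) then
      G ⟨(i : ℕ) / d, div_lt_aux i.2 hl⟩ else MvPolynomial.C (√2))
  have e : {x : ℕ → ℝ | (fun j => MvPolynomial.eval x (G j)) ∈ Red a' b'} =
      {x : ℕ → ℝ | (fun i : Fin (l + 1) => MvPolynomial.eval x (if h : d ∣ (i : ℕ) then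
      G ⟨(i : ℕ) / d, div_lt_aux i.2 hl⟩ else MvPolynomial.C (√2))) ∈ BasinM k l l} := by
    ext x
    simp only [Set.mem_ofPred_eq]
    rw [← hs]
    simp only [Set.mem_ofPred_eq]
    have e2 : (fun i : Fin (l + 1) => MvPolynomial.eval (fun j => MvPolynomial.eval x (G j))
        (if h : d ∣ (i : ℕ) then
          (MvPolynomial.X ⟨(i : ℕ) / d, div_lt_aux i.2 hl⟩ : MvPolynomial (Fin b') ℝ)
          else MvPolynomial.C (√2))) =
        (fun i : Fin (l + 1) => MvPolynomial.eval x (if h : d ∣ (i : ℕ) then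
          G ⟨(i : ℕ) / d, div_lt_aux i.2 hl⟩ else MvPolynomial.C (√2))) := by
      funext i
      split_ifs <;> simp
    rw [e2]
  rw [e]; exact h

end Pool.Agent.Lib_helper72.RBO
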