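import Pool.Agent.Lib_helper65.RBO.Defs6
import Pool.Agent.Lib_helper14.RBO.App

/-!
# The limit functional near the constant data is given by a convergent power series
-/

namespace Pool.Agent.Lib_helper72.RBO

open Filter Topology
open Pool.Agent.Lib_helper65.RB
open Pool.Agent.Lib_helper65.RBO

/-- The ring of polynomial functions of `b` variables. -/
noncomputable def SM (b : ℕ) : Subring ((Fin b → ℂ) → ℂ) :=
  (RingHom.pi (fun z : Fin b → ℂ => MvPolynomial.eval z)).range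

/-- The closed polydisc. -/
def KM (b : ℕ) (R : ℝ) : Set (Fin b → ℂ) := {z | ∀ i, ‖z i‖ ≤ R}

theorem mem_SM {b : ℕ} {F : (Fin b → ℂ) → ℂ} : F ∈ SM b ↔ ∃ P : MvPolynomial (Fin b) ℂ,
    ∀ z : Fin b → ℂ, MvPolynomial.eval z P = F z := by
  unfold SM
  rw [RingHom.mem_range]
  constructor
  · rintro ⟨P, rfl⟩
    exact ⟨P, fun p => rfl⟩
  · rintro ⟨P, hP⟩
    exact ⟨P, funext fun p => hP p⟩

theorem appM_iff {b : ℕ} {R : ℝ} {F : (Fin b → ℂ) → ℂ} : AppM R F ↔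
    Pool.Agent.Lib_helper14.RBO.App (KM b R) (SM b) F := by
  constructor
  · intro h e he
    obtain ⟨P, hP⟩ := h e he
    exact ⟨fun z => MvPolynomial.eval z P, mem_SM.2 ⟨P, fun p => rfl⟩, fun z hz => hP z hz⟩
  · intro h e he
    obtain ⟨Q, hQ, h1⟩ := h e he
    obtain ⟨P, hP⟩ := mem_SM.1 hQ
    exact ⟨P, fun z hz => by rw [hP]; exact h1 z hz⟩

theorem SM_bdd (b : ℕ) (R : ℝ) : ∀ P ∈ SM b, ∃ C : ℝ, ∀ z ∈ KM b R, ‖P z‖ ≤ C := by
  intro F hF
  obtain ⟨P, hP⟩ := mem_SM.1 hF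
  suffices h : ∃ C : ℝ, ∀ z ∈ KM b R, ‖MvPolynomial.eval z P‖ ≤ C by
    obtain ⟨C, hC⟩ := h
    exact ⟨C, fun z hz => by rw [← hP]; exact hC z hz⟩
  clear hP hF
  induction P using MvPolynomial.induction_on with
  | C a => exact ⟨‖a‖, fun z _ => by rw [MvPolynomial.eval_C]⟩
  | add p q hp hq =>
    obtain ⟨C, hC⟩ := hp
    obtain ⟨D, hD⟩ := hq
    refine ⟨C + D, fun z hz => ?_⟩
    rw [map_add]
    exact (norm_add_le _ _).trans (add_le_add (hC z hz) (hD z hz))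
  | mul_X p i hp =>
    obtain ⟨C, hC⟩ := hp
    refine ⟨|C| * |R|, fun z hz => ?_⟩
    rw [map_mul, MvPolynomial.eval_X, norm_mul]
    exact mul_le_mul ((hC z hz).trans (le_abs_self C)) ((hz i).trans (le_abs_self R))
      (norm_nonneg _) (abs_nonneg _)

theorem appM_congr {b : ℕ} {R : ℝ} {F G : (Fin b → ℂ) → ℂ} (hF : AppM R F)
    (h : ∀ z : Fin b → ℂ, (∀ i, ‖z i‖ ≤ R) → G z = F z) : AppM R G := fun e he => by
  obtain ⟨P, hP⟩ := hF e he
  exact ⟨P, fun z hz => by rw [h z hz]; exact hP z hz⟩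

theorem appM_const {b : ℕ} {R : ℝ} (w : ℂ) : AppM R (fun _ : Fin b → ℂ => w) :=
  fun e he => ⟨MvPolynomial.C w, fun z _ => by
    rw [MvPolynomial.eval_C, sub_self, norm_zero]; exact he.le⟩

theorem appM_coord {b : ℕ} {R : ℝ} (i : Fin b) : AppM R (fun z : Fin b → ℂ => z i) :=
  fun e he => ⟨MvPolynomial.X i, fun z _ => by
    rw [MvPolynomial.eval_X, sub_self, norm_zero]; exact he.le⟩

theorem appM_add {b : ℕ} {R : ℝ} {F G : (Fin b → ℂ) → ℂ} (hF : AppM R F) (hG : AppM R G) :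
    AppM R (fun z => F z + G z) := appM_iff.2 ((appM_iff.1 hF).add (appM_iff.1 hG))

theorem appM_mul {b : ℕ} {R : ℝ} {F G : (Fin b → ℂ) → ℂ} (hF : AppM R F) (hG : AppM R G) :
    AppM R (fun z => F z * G z) :=
  appM_iff.2 ((appM_iff.1 hF).mul (SM_bdd b R) (appM_iff.1 hG))

theorem appM_inv {b : ℕ} {R : ℝ} {F : (Fin b → ℂ) → ℂ} (hF : AppM R F)
    (h : ∀ z : Fin b → ℂ, (∀ i, ‖z i‖ ≤ R) → ‖F z - 1‖ ≤ 1 / 2) :
    AppM R (fun z => (F z)⁻¹) :=
  appM_iff.2 ((appM_iff.1 hF).inv (SM_bdd b R) (fun z hz => h z hz))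

theorem appM_lim {b : ℕ} {R : ℝ} {F : (Fin b → ℂ) → ℂ}
    (h : ∀ ε > 0, ∃ G : (Fin b → ℂ) → ℂ, AppM R G ∧
      ∀ z : Fin b → ℂ, (∀ i, ‖z i‖ ≤ R) → ‖F z - G z‖ ≤ ε) : AppM R F := by
  refine appM_iff.2 (Pool.Agent.Lib_helper14.RBO.App.lim (fun e he => ?_))
  obtain ⟨G, hG, h1⟩ := h e he
  exact ⟨G, appM_iff.1 hG, fun z hz => h1 z hz⟩

/-- Statement of block G1. -/
def AppMSeries (b : ℕ) : Prop := ∀ {R : ℝ}, 0 < R → ∀ {F : (Fin b → ℂ) → ℂ}, AppM R F →
    ∃ c : (Fin b →₀ ℕ) → ℂ, ∀ r, 0 < r → r < R →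
      Summable (fun α : Fin b →₀ ℕ => ‖c α‖ * r ^ (∑ i, α i)) ∧
      ∀ z : Fin b → ℂ, (∀ i, ‖z i‖ ≤ r) → F z = ∑' α : Fin b →₀ ℕ, c α * ∏ i, z i ^ α i

/-- Statement of block G3. -/
def CwgConv (a b : ℕ) : Prop := ∃ R C ρ : ℝ, 0 < R ∧ R ≤ 1 / 2 ∧ 0 < C ∧ 0 < ρ ∧ ρ < 1 ∧
    ∀ z : Fin b → ℂ, (∀ i, ‖z i‖ ≤ R) → ∀ n : ℕ,
      ‖cwg a b z n - 1‖ ≤ 1 / 4 ∧ ‖cwg a b z (n + 1) - cwg a b z n‖ ≤ C * ρ ^ n

/-- Every value of the complex recursion is in the class `AppM`. -/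
theorem appM_cwg {a b : ℕ} {R : ℝ}
    (h : ∀ z : Fin b → ℂ, (∀ i, ‖z i‖ ≤ R) → ∀ n : ℕ, ‖cwg a b z n - 1‖ ≤ 1 / 4) (n : ℕ) :
    AppM R (fun z => cwg a b z n) := by
  induction n using Nat.strong_induction_on with
  | _ n ih =>
  by_cases h1 : n < b
  · refine appM_congr (appM_add (appM_const 1) (appM_coord ⟨n, h1⟩)) (fun z _ => ?_)
    rw [cwg, dif_pos h1]
  by_cases h2 : a = 0 ∨ b = 0
  · refine appM_congr (appM_const 1) (fun z _ => ?_)
    rw [cwg, dif_neg h1, if_pos h2]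
  have e0 : ∀ z, cwg a b z n = cmean n (cwg a b z (n - a)) (cwg a b z (n - b)) := by
    intro z
    conv_lhs => rw [cwg]
    rw [dif_neg h1, if_neg h2]
  have g1 := ih (n - a) (by omega)
  have g2 := ih (n - b) (by omega)
  have hm : AppM R (fun z => (cwg a b z (n - a) + cwg a b z (n - b)) * (1 / 2)) :=
    appM_mul (appM_add g1 g2) (appM_const (1 / 2))
  by_cases he : Even n
  · refine appM_congr hm (fun z _ => ?_)
    rw [e0 z]
    unfold cmean
    rw [if_pos he]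
    ring
  · refine appM_congr (appM_mul (appM_mul g1 g2) (appM_inv hm ?_)) (fun z _ => ?_)
    · intro z hz
      have f1 := h z hz (n - a)
      have f2 := h z hz (n - b)
      have e : (cwg a b z (n - a) + cwg a b z (n - b)) * (1 / 2) - 1 =
          ((cwg a b z (n - a) - 1) + (cwg a b z (n - b) - 1)) * (1 / 2) := by ring
      rw [e, norm_mul]
      have h3 : ‖(1 / 2 : ℂ)‖ = 1 / 2 := by simp
      rw [h3]
      have := norm_add_le (cwg a b z (n - a) - 1) (cwg a b z (n - b) - 1)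
      linarith
    · rw [e0 z]
      unfold cmean
      rw [if_neg he, mul_inv, one_div, inv_inv]
      ring

/-- For real parameters the complex recursion is the real one. -/
theorem cwg_real {a b : ℕ} (z : Fin b → ℝ) (n : ℕ) : cwg a b (fun i => (z i : ℂ)) n =
    ((wsol a b (fun n => if h : n < b then 1 + z ⟨n, h⟩ else 1) n : ℝ) : ℂ) := by
  induction n using Nat.strong_induction_on with
  | _ n ih =>
  by_cases h1 : n < b
  · rw [cwg, dif_pos h1, wsol, dif_pos (Or.inl h1), dif_pos h1]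
    push_cast; rfl
  by_cases h2 : a = 0 ∨ b = 0
  · rw [cwg, dif_neg h1, if_pos h2, wsol, dif_pos (Or.inr h2), dif_neg h1]
    push_cast; rfl
  rw [cwg, dif_neg h1, if_neg h2, wsol, dif_neg (by tauto), ih _ (by omega), ih _ (by omega)]
  unfold cmean mean
  split_ifs <;> push_cast <;> ring

theorem series_gen_of {a b : ℕ} (ha : 0 < a) (hab : a ≤ b) (hc : Nat.Coprime a b)
    (hG1 : AppMSeries b) (hG3 : CwgConv a b) :
    ∃ (ε : ℝ) (c : (Fin b →₀ ℕ) → ℝ), 0 < ε ∧ ε < 1 ∧ AbsConv c ε ∧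
    ∀ z : Fin b → ℝ, (∀ i, |z i| ≤ ε) →
      LL a b (fun n => if h : n < b then 1 + z ⟨n, h⟩ else 1) = mser c z := by
  obtain ⟨R, C, ρ, hR, hR2, hC, hρ, hρ1, h⟩ := hG3
  -- the limit function
  have hlim : ∀ z : Fin b → ℂ, (∀ i, ‖z i‖ ≤ R) → ∃ L : ℂ, Tendsto (cwg a b z) atTop (𝓝 L) := by
    intro z hz
    have hcs : CauchySeq (cwg a b z) := cauchySeq_of_le_geometric ρ C hρ1 (fun n => by
      rw [dist_comm, dist_eq_norm]; exact (h z hz n).2)
    exact cauchySeq_tendsto_of_complete hcs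
  obtain ⟨F, hF⟩ : ∃ F : (Fin b → ℂ) → ℂ, ∀ z : Fin b → ℂ, (∀ i, ‖z i‖ ≤ R) →
      Tendsto (cwg a b z) atTop (𝓝 (F z)) :=
    ⟨fun z => limUnder atTop (cwg a b z), fun z hz => tendsto_nhds_limUnder (hlim z hz)⟩
  have hFn : ∀ z : Fin b → ℂ, (∀ i, ‖z i‖ ≤ R) → ∀ n,
      ‖F z - cwg a b z n‖ ≤ C * ρ ^ n / (1 - ρ) := by
    intro z hz n
    have := dist_le_of_le_geometric_of_tendsto ρ C hρ1 (fun n => by
      rw [dist_comm, dist_eq_norm]; exact (h z hz n).2) (hF z hz) n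
    rwa [dist_comm, dist_eq_norm] at this
  have hApp : AppM R F := by
    apply appM_lim
    intro e he
    have h1 : Tendsto (fun n : ℕ => C * ρ ^ n / (1 - ρ)) atTop (𝓝 0) := by
      have := ((tendsto_pow_atTop_nhds_zero_of_lt_one hρ.le hρ1).const_mul C).div_const (1 - ρ)
      simpa using this
    obtain ⟨n, hn⟩ := (h1.eventually (gt_mem_nhds he)).exists
    exact ⟨fun z => cwg a b z n, appM_cwg (fun z hz n => (h z hz n).1) n,
      fun z hz => (hFn z hz n).trans hn.le⟩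
  obtain ⟨c, hc'⟩ := hG1 hR hApp
  obtain ⟨hsum, heq⟩ := hc' (R / 2) (by linarith) (by linarith)
  refine ⟨R / 2, fun α => (c α).re, by linarith, by linarith, ?_, ?_⟩
  · unfold AbsConv
    refine Summable.of_nonneg_of_le (fun p => by positivity) (fun p => ?_) hsum
    exact mul_le_mul_of_nonneg_right (Complex.abs_re_le_norm _) (by positivity)
  · intro z hz
    have hz' : ∀ i, ‖((z i : ℝ) : ℂ)‖ ≤ R / 2 := fun i => by
      rw [Complex.norm_real]; exact hz i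
    have h1 := hF (fun i => (z i : ℂ)) (fun i => by have := hz' i; linarith)
    have hvp : ∀ n < b, 0 < (fun n => if h : n < b then 1 + z ⟨n, h⟩ else 1) n := by
      intro n hn
      simp only [dif_pos hn]
      have := (abs_le.1 (hz ⟨n, hn⟩)).1
      linarith
    have h2 := LL_tendsto ha hab hc hvp
    have h3 : Tendsto (cwg a b (fun i => (z i : ℂ))) atTop
        (𝓝 ((LL a b (fun n => if h : n < b then 1 + z ⟨n, h⟩ else 1) : ℝ) : ℂ)) := by
      have h4 := (Complex.continuous_ofReal.tendsto _).comp h2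
      refine h4.congr (fun n => ?_)
      rw [Function.comp_apply, cwg_real]
    have h5 := tendsto_nhds_unique h1 h3
    rw [heq (fun i => (z i : ℂ)) hz'] at h5
    have h6 := congrArg Complex.re h5
    rw [Complex.ofReal_re] at h6
    rw [← h6]
    have hsm : Summable (fun α : Fin b →₀ ℕ => c α * ∏ i, ((z i : ℝ) : ℂ) ^ α i) := by
      refine Summable.of_norm_bounded hsum (fun α => ?_)
      rw [norm_mul, norm_prod, ← Finset.prod_pow_eq_pow_sum]
      refine mul_le_mul_of_nonneg_left ?_ (norm_nonneg _)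
      apply Finset.prod_le_prod
      · intro i _; positivity
      · intro i _
        rw [norm_pow]
        exact pow_le_pow_left₀ (norm_nonneg _) (hz' i) _
    rw [Complex.re_tsum hsm]
    unfold mser
    apply tsum_congr
    intro α
    have e : c α * ∏ i, ((z i : ℝ) : ℂ) ^ α i = c α * ((∏ i, z i ^ α i : ℝ) : ℂ) := by
      push_cast; ring
    rw [e, Complex.re_mul_ofReal]

end Pool.Agent.Lib_helper72.RBO
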