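import Pool.Agent.Lib_helper48.RBO.G1
import Pool.Agent.Lib_helper65.RBO.G3a
import Pool.Agent.Lib_helper14.RBO.G3
import Pool.Agent.Lib_helper72.RBO.SerG
import Pool.Agent.Lib_helper65.RBO.G5
import Pool.Agent.Lib_helper72.RBO.Det

/-!
# The general pair with the equations which determine the power series
-/

namespace Pool.Agent.Lib_helper72.RBO

open Filter Topology
open Pool.Agent.Lib_helper65.RB Pool.Agent.Lib_helper65.RBO

/-- The equations which determine the power series (for odd `b`). -/
def Eqs (a b : ℕ) (ε : ℝ) (c : (Fin b →₀ ℕ) → ℝ) : Prop :=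
  (∀ t : ℝ, |t - 1| ≤ ε → mser c (fun _ : Fin b => t - 1) = t) ∧
  ∀ s : ℕ → ℝ, (∀ i < b, |s i - 1| ≤ ε / 2) → 2 / s b = 1 / s (b - a) + 1 / s 0 →
    mser c (fun i : Fin b => s i - 1) * mser c (fun i : Fin b => 1 / s (i + 1) - 1) = 1

theorem series_gen {a b : ℕ} (ha : 0 < a) (hab : a ≤ b) (hc : Nat.Coprime a b) : SerGen a b :=
  series_gen_of ha hab hc (fun hR _ hF => Pool.Agent.Lib_helper48.RBO.appM_series hR hF)
    (Pool.Agent.Lib_helper14.RBO.cwg_conv_of ha hab
      (Pool.Agent.Lib_helper65.RBO.lin_contract ha hab hc))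

theorem eqs {a b : ℕ} (ha : 0 < a) (hab : a ≤ b) (hc : Nat.Coprime a b) (hb : Odd b) {ε : ℝ}
    (h0 : 0 < ε) (h1 : ε < 1) {c : (Fin b →₀ ℕ) → ℝ}
    (hser : ∀ z : Fin b → ℝ, (∀ i, |z i| ≤ ε) →
      LL a b (fun n => if h : n < b then 1 + z ⟨n, h⟩ else 1) = mser c z) : Eqs a b ε c := by
  constructor
  · intro t ht
    have tp : 0 < t := by have := (abs_le.1 ht).1; linarith
    rw [← hser _ (fun _ => ht)]
    have e : LL a b (fun n => if h : n < b then 1 + (t - 1) else 1) = LL a b (fun _ => t * 1) := by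
      apply LL_congr ha hab hc
      · intro n hn
        simp only [dif_pos hn]; linarith
      · intro n hn
        simp only [dif_pos hn]; ring
    rw [e, LL_smul ha hab hc (fun _ _ => one_pos) tp, LL_one ha hab hc, mul_one]
  · intro s hs hsb
    have hb0 : 0 < b := by omega
    have hsp : ∀ i < b, 1 / 2 ≤ s i := fun i hi => by
      have := (abs_le.1 (hs i hi)).1; linarith
    have hinv : ∀ i < b, |1 / s i - 1| ≤ ε := by
      intro i hi
      have g := hsp i hi
      have g0 : 0 < s i := by linarith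
      have e : 1 / s i - 1 = (1 - s i) / s i := by field_simp
      rw [e, abs_div, abs_of_pos g0, div_le_iff₀ g0, abs_sub_comm]
      have := hs i hi
      nlinarith
    have hinvb : |1 / s b - 1| ≤ ε := by
      have e : 1 / s b - 1 = ((1 / s (b - a) - 1) + (1 / s 0 - 1)) / 2 := by
        have : 1 / s b = (2 / s b) / 2 := by ring
        rw [this, hsb]; ring
      rw [e, abs_div, abs_two]
      have g1 := hinv (b - a) (by omega)
      have g2 := hinv 0 hb0
      have := abs_add_le (1 / s (b - a) - 1) (1 / s 0 - 1)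
      linarith
    have hall : ∀ i ≤ b, |1 / s i - 1| ≤ ε := fun i hi => by
      rcases hi.lt_or_eq with h | rfl
      · exact hinv i h
      · exact hinvb
    set w : ℕ → ℝ := wsol a b s with hw
    have hW : IsW a b w := wsol_isW ha hab s
    have hw0 : ∀ n < b, w n = s n := fun n hn => wsol_init hn
    have hwp : ∀ n < b, 0 < w n := fun n hn => by
      rw [hw0 n hn]; have := hsp n hn; linarith
    have hwb : w b = s b := by
      have g := hW 0
      have hodd : ¬ Even (0 + b) := by rw [zero_add]; exact Nat.not_even_iff_odd.2 hb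
      unfold mean at g
      rw [if_neg hodd] at g
      rw [zero_add] at g
      rw [g, hw0 _ (by omega), hw0 _ hb0]
      have p1 := hsp (b - a) (by omega)
      have p2 := hsp 0 hb0
      have q1 : s (b - a) ≠ 0 := by intro h; rw [h] at p1; norm_num at p1
      have q2 : s 0 ≠ 0 := by intro h; rw [h] at p2; norm_num at p2
      have q3 : s (b - a) + s 0 ≠ 0 := by intro h; linarith
      have q4 : s b ≠ 0 := by
        intro h
        rw [h, div_zero] at hsb
        have r1 : 0 < 1 / s (b - a) := by apply one_div_pos.2; linarith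
        have r2 : 0 < 1 / s 0 := by apply one_div_pos.2; linarith
        linarith
      field_simp at hsb ⊢
      linarith
    have v1 : LL a b w = mser c (fun i : Fin b => s i - 1) := by
      rw [← hser _ (fun i => (hs i i.2).trans (by linarith))]
      apply LL_congr ha hab hc hwp
      intro n hn
      rw [dif_pos hn, hw0 n hn]; simp only; ring
    have v2 : LL a b (fun n => 1 / w (n + 1)) = mser c (fun i : Fin b => 1 / s (i + 1) - 1) := by
      rw [← hser _ (fun i => hall (i + 1) i.2)]
      have e : ∀ n < b, w (n + 1) = s (n + 1) := by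
        intro n hn
        rcases (show n + 1 ≤ b by omega).lt_or_eq with h | h
        · exact hw0 _ h
        · rw [h, hwb]
      have hpos := hW.pos (by omega) ha hab hwp
      apply LL_congr ha hab hc (fun n _ => one_div_pos.2 (hpos _))
      intro n hn
      rw [dif_pos hn, e n hn]; simp only; ring
    have v3 := LL_shift_odd ha hab hc hW hwp (N := 1) odd_one
    have v4 : LL a b (fun n => 2 / w (n + 1)) = 2 * LL a b (fun n => 1 / w (n + 1)) := by
      have hpos := hW.pos (by omega) ha hab hwp
      rw [← LL_smul ha hab hc (fun n _ => one_div_pos.2 (hpos _)) two_pos]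
      congr 1
      funext n; ring
    have v5 : LL a b w ≠ 0 := (LL_pos ha hab hc hwp).ne'
    rw [v4] at v3
    rw [← v1, ← v2]
    field_simp at v3
    linarith

theorem determined {a b : ℕ} (ha : 0 < a) (hab : a ≤ b) (hc : Nat.Coprime a b) (hb : Odd b)
    {ε : ℝ} (h0 : 0 < ε) (h1 : ε < 1) {G : (Fin b → ℝ) → ℝ}
    (hGc : ContinuousOn G {s | ∀ i, |s i - 1| ≤ ε}) (hG : Determining a b ε G)
    {s : ℕ → ℝ} (hs : ∀ i < b, |s i - 1| ≤ ε / 4) : G (fun i => s i) = LL a b s := by
  obtain ⟨hG0, hG1⟩ := hG
  have hb0 : 0 < b := by omega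
  set w : ℕ → ℝ := wsol a b s with hw
  have hW : IsW a b w := wsol_isW ha hab s
  have hw0 : ∀ n < b, w n = s n := fun n hn => wsol_init hn
  have hband : ∀ n, 1 - ε / 4 ≤ w n ∧ w n ≤ 1 + ε / 4 := by
    intro n
    apply hW.band hb0 ha hab (k := 0) (by linarith) _ n (Nat.zero_le n)
    intro n _ hn
    rw [zero_add] at hn
    rw [hw0 n hn]
    have := abs_le.1 (hs n hn)
    constructor <;> linarith [this.1, this.2]
  have hwp : ∀ n, 0 < w n := fun n => by have := (hband n).1; linarith
  have hwn : ∀ n, w n ≠ 0 := fun n => (hwp n).ne'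
  have hnear : ∀ n, |w n - 1| ≤ ε / 2 := fun n => by
    rw [abs_le]; have := hband n; constructor <;> linarith [this.1, this.2]
  have hinv : ∀ n, |1 / w n - 1| ≤ ε / 2 := by
    intro n
    have e : 1 / w n - 1 = (1 - w n) / w n := by have := hwn n; field_simp
    have g := hband n
    rw [e, abs_div, abs_of_pos (hwp n), div_le_iff₀ (hwp n), abs_le]
    constructor <;> nlinarith [g.1, g.2]
  -- even step
  have step1 : ∀ n, Even n → G (fun i : Fin b => w (n + i)) *
      G (fun i : Fin b => 1 / w (n + (i + 1))) = 1 := by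
    intro n hn
    apply hG1 (fun i => w (n + i)) (fun i _ => hnear _)
    have g := hW n
    have hodd : ¬ Even (n + b) := by
      rw [Nat.even_add]; simp [hn, Nat.not_even_iff_odd.2 hb]
    unfold mean at g
    rw [if_neg hodd] at g
    show 2 / w (n + b) = 1 / w (n + (b - a)) + 1 / w (n + 0)
    rw [g, show n + (b - a) = n + b - a by omega, add_zero]
    have q1 := hwn (n + b - a)
    have q2 := hwn n
    have q3 : w (n + b - a) + w n ≠ 0 := by have := hwp (n + b - a); have := hwp n; positivity
    field_simp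
    try ring
  have step2 : ∀ n, Even n → G (fun i : Fin b => 1 / w (n + (i + 1))) *
      G (fun i : Fin b => w (n + 2 + i)) = 1 := by
    intro n hn
    have g := hW (n + 1)
    have heven : Even (n + 1 + b) := by
      rw [Nat.even_add]
      have : ¬ Even (n + 1) := by rw [Nat.even_add_one]; simp [hn]
      simp [this, Nat.not_even_iff_odd.2 hb]
    unfold mean at g
    rw [if_pos heven] at g
    have key := hG1 (fun i => 1 / w (n + (i + 1))) (fun i _ => hinv _) (by
      show 2 / (1 / w (n + (b + 1))) = 1 / (1 / w (n + (b - a + 1))) + 1 / (1 / w (n + (0 + 1)))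
      rw [show n + (b + 1) = n + 1 + b by ring, g, show n + (b - a + 1) = n + 1 + b - a by omega,
        zero_add]
      have q1 := hwn (n + 1 + b - a)
      have q2 := hwn (n + 1)
      have q3 : w (n + 1 + b - a) + w (n + 1) ≠ 0 := by
        have := hwp (n + 1 + b - a); have := hwp (n + 1); positivity
      field_simp)
    simp only [one_div_one_div] at key
    have e : (fun i : Fin b => w (n + (i + 1 + 1))) = (fun i : Fin b => w (n + 2 + i)) := by
      funext i; congr 1; ring
    rw [e] at key
    exact key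
  have hconst : ∀ n, G (fun i : Fin b => w (2 * n + i)) = G (fun i : Fin b => w i) := by
    intro n
    induction n with
    | zero => simp
    | succ n ih =>
      rw [← ih]
      have k1 := step1 (2 * n) (even_two_mul n)
      have k2 := step2 (2 * n) (even_two_mul n)
      have hne : G (fun i : Fin b => 1 / w (2 * n + (i + 1))) ≠ 0 := by
        intro h; rw [h, mul_zero] at k1; exact zero_ne_one k1
      rw [show 2 * (n + 1) = 2 * n + 2 by ring]
      apply mul_left_cancel₀ hne
      rw [k2, mul_comm, k1]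
  have hlim := hW.tendsto_LL ha hab hc (fun n _ => hwp n)
  have hLL : LL a b w = LL a b s :=
    LL_congr ha hab hc (fun n _ => hwp n) (fun n hn => hw0 n hn)
  rw [hLL] at hlim
  set L := LL a b s with hL
  have hLb : |L - 1| ≤ ε / 2 := by
    apply le_of_tendsto ((hlim.sub_const 1).abs)
    exact Eventually.of_forall hnear
  have hstate : Tendsto (fun n => (fun i : Fin b => w (2 * n + i))) atTop
      (𝓝[{s | ∀ i, |s i - 1| ≤ ε}] (fun _ => L)) := by
    rw [tendsto_nhdsWithin_iff]
    constructor
    · rw [tendsto_pi_nhds]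
      intro i
      apply hlim.comp
      exact tendsto_atTop_mono (fun n : ℕ => (by omega : n ≤ 2 * n + (i : ℕ))) tendsto_id
    · refine Eventually.of_forall (fun n i => (hnear _).trans (by linarith))
  have hG2 : Tendsto (fun n => G (fun i : Fin b => w (2 * n + i))) atTop (𝓝 (G (fun _ => L))) :=
    (hGc (fun _ => L) (fun _ => hLb.trans (by linarith))).tendsto.comp hstate
  simp only [hconst] at hG2
  have h3 := tendsto_nhds_unique hG2 tendsto_const_nhds
  rw [hG0 L (hLb.trans (by linarith))] at h3
  rw [h3]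
  congr 1
  funext i
  exact (hw0 i i.2).symm

/-- The series satisfies the equations, and they determine it. -/
def DetU (a b : ℕ) (ε : ℝ) (c : (Fin b →₀ ℕ) → ℝ) : Prop :=
  Determining a b ε (fun s => mser c (fun i => s i - 1)) ∧
  ∀ G : (Fin b → ℝ) → ℝ, ContinuousOn G {s | ∀ i, |s i - 1| ≤ ε} → Determining a b ε G →
    ∀ s : Fin b → ℝ, (∀ i, |s i - 1| ≤ ε / 4) → G s = mser c (fun i => s i - 1)

theorem detU {a b : ℕ} (ha : 0 < a) (hab : a ≤ b) (hc : Nat.Coprime a b) (hb : Odd b) {ε : ℝ}
    (h0 : 0 < ε) (h1 : ε < 1) {c : (Fin b →₀ ℕ) → ℝ}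
    (hser : ∀ z : Fin b → ℝ, (∀ i, |z i| ≤ ε) →
      LL a b (fun n => if h : n < b then 1 + z ⟨n, h⟩ else 1) = mser c z) : DetU a b ε c := by
  obtain ⟨e1, e2⟩ := eqs ha hab hc hb h0 h1 hser
  refine ⟨⟨e1, e2⟩, fun G hGc hG s hs => ?_⟩
  have k := determined ha hab hc hb h0 h1 hGc hG (s := fun n => if h : n < b then s ⟨n, h⟩ else 1)
    (fun i hi => by simp only [dif_pos hi]; exact hs _)
  have e3 : (fun i : Fin b => (fun n => if h : n < b then s ⟨n, h⟩ else 1) (i : ℕ)) = s := by
    funext i
    simp only [i.2, dif_pos]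
  rw [e3] at k
  rw [k, ← hser (fun i => s i - 1) (fun i => (hs i).trans (by linarith))]
  apply LL_congr ha hab hc
  · intro n hn
    simp only [dif_pos hn]
    have := (abs_le.1 (hs ⟨n, hn⟩)).1
    linarith
  · intro n hn
    simp only [dif_pos hn]
    ring

/-- The core, for an ordered pair. -/
theorem core8 {a b d k l : ℕ} (ha : Odd a) (hb : Odd b) (hab : a < b) (hc : Nat.Coprime a b)
    (hd : 0 < d) (hk : k + 1 = d * a) (hl : l + 1 = d * b) (hs : SerGen a b) :
    ∃ (ε : ℝ) (c : (Fin b →₀ ℕ) → ℝ), 0 < ε ∧ ε < 1 ∧ AbsConv c ε ∧ DetU a b ε c ∧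
    ∀ x : ℕ → ℝ, (∀ i ≤ l, 0 < x i) →
      (∀ j, x (j + l + 1) = 1 / x (j + l - k) + 1 / x j) →
      (∃ N, ∀ n, N ≤ n → Even n → ∀ j < d, ∀ i < b, |st d x n j i / st d x n j 0 - 1| ≤ ε / 2) ∧
      ∀ n, Even n → (∀ j < d, ∀ i < b, |st d x n j i / st d x n j 0 - 1| ≤ ε / 2) →
        ((fun i : Fin (l + 1) => x i) ∈ BasinM k l l ↔
          ∀ j < d, st d x n j 0 * mser c (fun i : Fin b => st d x n j i / st d x n j 0 - 1) =
            √2) := by
  obtain ⟨ε, c, hε, hε1, hconv, hser⟩ := hs
  have ha0 := ha.pos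
  have hb0 := hb.pos
  refine ⟨ε, c, hε, hε1, hconv, detU ha0 hab.le hc hb hε hε1 hser, ?_⟩
  intro x hx0 hx
  have hkl : k < l := by
    have : d * a < d * b := Nat.mul_lt_mul_of_pos_left hab hd
    omega
  have hxp : ∀ n, 0 < x n := by
    intro n
    induction n using Nat.strong_induction_on with
    | _ n ih =>
      by_cases hn : n ≤ l
      · exact hx0 n hn
      · obtain ⟨j, rfl⟩ : ∃ j, n = j + l + 1 := ⟨n - (l + 1), by omega⟩
        rw [hx j]
        have := ih (j + l - k) (by omega)
        have := ih j (by omega)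
        positivity
  -- the rows
  have hzsol : ∀ r, IsSol a b (fun j => x (d * j + r)) := by
    intro r j
    have h := hx (d * j + r)
    have e1 : d * j + r + l + 1 = d * (j + b) + r := by rw [mul_add, ← hl]; ring
    have e2 : d * j + r + l - k = d * (j + b - a) + r := by
      have h1 : j + b - a + a = j + b := by omega
      have h3 : d * (j + b - a) + d * a = d * j + d * b := by
        rw [← mul_add, h1, mul_add]
      omega
    rw [e1, e2] at h
    exact h
  have hzp : ∀ r j, 0 < x (d * j + r) := fun r j => hxp _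
  have hW : ∀ r, IsW a b (flp (fun j => x (d * j + r))) := fun r =>
    isW_flp ha hb hab.le (fun j => hzp r j) (hzsol r)
  have hWp : ∀ r j, 0 < flp (fun j => x (d * j + r)) j := fun r j =>
    flp_pos (fun j => hzp r j) j
  have hst : ∀ n, Even n → ∀ j i, st d x n j i = flp (fun j' => x (d * j' + j)) (i + n) := by
    intro n hn j i
    unfold st flp
    have e : (n + i) * d + j = d * (i + n) + j := by ring
    have e2 : Even (i + n) ↔ Even i := by
      rw [Nat.even_add]; simp [hn]
    rw [e]
    by_cases hi : Even i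
    · rw [if_pos hi, if_pos (e2.2 hi)]
    · rw [if_neg hi, if_neg (fun h => hi (e2.1 h))]
  constructor
  · -- convergence
    have h1 : ∀ j : ℕ, ∃ N, ∀ m m', N ≤ m → N ≤ m' →
        |flp (fun j' => x (d * j' + j)) m / flp (fun j' => x (d * j' + j)) m' - 1| ≤ ε / 2 := by
      intro j
      obtain ⟨L, hL, hT⟩ := (hW j).converges ha0 hab.le hc (fun n _ => hWp j n)
      have hev : ∀ᶠ p : ℕ × ℕ in atTop,
          |flp (fun j' => x (d * j' + j)) p.1 / flp (fun j' => x (d * j' + j)) p.2 - 1| < ε / 2 := by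
        have hT1 : Tendsto (fun p : ℕ × ℕ => flp (fun j' => x (d * j' + j)) p.1) atTop (𝓝 L) := by
          rw [← prod_atTop_atTop_eq]; exact hT.comp tendsto_fst
        have hT2 : Tendsto (fun p : ℕ × ℕ => flp (fun j' => x (d * j' + j)) p.2) atTop (𝓝 L) := by
          rw [← prod_atTop_atTop_eq]; exact hT.comp tendsto_snd
        have hT3 := ((hT1.div hT2 hL.ne').sub_const 1).abs
        rw [div_self hL.ne', sub_self, abs_zero] at hT3
        exact hT3.eventually_lt_const (by positivity)
      obtain ⟨⟨N1, N2⟩, hN⟩ := eventually_atTop.1 hev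
      refine ⟨max N1 N2, fun m m' hm hm' => (hN (m, m') ?_).le⟩
      exact ⟨le_of_max_le_left hm, le_of_max_le_right hm'⟩
    choose N hN using h1
    refine ⟨(Finset.range d).sup N, fun n hn hne j hj i _ => ?_⟩
    have hNj : N j ≤ n := (Finset.le_sup (Finset.mem_range.2 hj)).trans hn
    rw [hst n hne, hst n hne]
    exact hN j _ _ (by omega) (by omega)
  · intro n hne hclose
    rw [mem_BasinM_iff ha hb hab hc hd hk hl]
    have key : ∀ r (hr : r < d), (row hl (fun i : Fin (l + 1) => x i) r hr ∈ Red a b ↔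
        st d x n r 0 * mser c (fun i : Fin b => st d x n r i / st d x n r 0 - 1) = √2) := by
      intro r hr
      have hrow : ∀ j, row hl (fun i : Fin (l + 1) => x i) r hr j = x (d * (j : ℕ) + r) := by
        intro j; rfl
      have hLL : LL a b (ww (row hl (fun i : Fin (l + 1) => x i) r hr)) =
          LL a b (flp (fun j => x (d * j + r))) := by
        apply LL_congr ha0 hab.le hc
        · intro j _
          exact ww_pos (fun i => by rw [hrow]; exact hxp _) j
        · intro j hj
          unfold ww flp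
          rw [dif_pos hj, hrow]
      have hsh := LL_shift_even ha0 hab.le hc (hW r) (fun j _ => hWp r j) hne
      have p0 : 0 < st d x n r 0 := by rw [hst n hne]; exact hWp r _
      have hval := hser (fun i : Fin b => st d x n r i / st d x n r 0 - 1)
        (fun i => (hclose r hr i i.2).trans (by linarith))
      have hpos : ∀ j < b, 0 < (fun j : ℕ => if h : j < b then
          1 + (fun i : Fin b => st d x n r i / st d x n r 0 - 1) ⟨j, h⟩ else (1 : ℝ)) j := by
        intro j hj
        simp only
        rw [dif_pos hj]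
        have := hWp r (j + n)
        rw [← hst n hne] at this
        have h2 : 1 + (st d x n r j / st d x n r 0 - 1) = st d x n r j / st d x n r 0 := by ring
        rw [h2]
        positivity
      rw [← hval, ← LL_smul ha0 hab.le hc hpos p0]
      have hfin : LL a b (fun j => flp (fun j' => x (d * j' + r)) (j + n)) =
          LL a b (fun j => st d x n r 0 * (if h : j < b then
            1 + (fun i : Fin b => st d x n r i / st d x n r 0 - 1) ⟨j, h⟩ else (1 : ℝ))) := by
        apply LL_congr ha0 hab.le hc (fun j _ => hWp r _)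
        intro j hj
        rw [dif_pos hj, ← hst n hne]
        simp only
        field_simp
        ring
      rw [← hfin, hsh, ← hLL]
      constructor
      · exact fun h => h.2
      · exact fun h => ⟨fun i => by rw [hrow]; exact hxp _, h⟩
    constructor
    · exact fun h j hj => (key j hj).1 (h j hj)
    · exact fun h r hr => (key r hr).2 (h r hr)

/-- The general pair. -/
theorem main8 {k l : ℕ} (hkl : k ≠ l) (hv : padicValNat 2 (k + 1) = padicValNat 2 (l + 1))
    {d a b : ℕ} (hd : d = Nat.gcd (k + 1) (l + 1)) (ha : min k l + 1 = a * d)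
    (hb : max k l + 1 = b * d) :
    ∃ (ε : ℝ) (c : (Fin b →₀ ℕ) → ℝ), 0 < ε ∧ ε < 1 ∧ AbsConv c ε ∧ DetU a b ε c ∧
    ∀ x : ℕ → ℝ, (∀ i ≤ max k l, 0 < x i) →
      (∀ j, x (j + max k l + 1) = 1 / x (j + max k l - k) + 1 / x (j + max k l - l)) →
      (∃ N, ∀ n, N ≤ n → Even n → ∀ j < d, ∀ i < b, |st d x n j i / st d x n j 0 - 1| ≤ ε / 2) ∧
      ∀ n, Even n → (∀ j < d, ∀ i < b, |st d x n j i / st d x n j 0 - 1| ≤ ε / 2) →
        ((fun i : Fin (max k l + 1) => x i) ∈ Basin k l ↔
          ∀ j < d, st d x n j 0 * mser c (fun i : Fin b => st d x n j i / st d x n j 0 - 1) =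
            √2) := by
  unfold Basin
  -- ordered version
  have main : ∀ k l : ℕ, k < l → padicValNat 2 (k + 1) = padicValNat 2 (l + 1) →
      d = Nat.gcd (k + 1) (l + 1) → k + 1 = a * d → l + 1 = b * d →
      ∃ (ε : ℝ) (c : (Fin b →₀ ℕ) → ℝ), 0 < ε ∧ ε < 1 ∧ AbsConv c ε ∧ DetU a b ε c ∧
      ∀ x : ℕ → ℝ, (∀ i ≤ l, 0 < x i) →
        (∀ j, x (j + l + 1) = 1 / x (j + l - k) + 1 / x j) →
        (∃ N, ∀ n, N ≤ n → Even n → ∀ j < d, ∀ i < b, |st d x n j i / st d x n j 0 - 1| ≤ ε / 2) ∧
        ∀ n, Even n → (∀ j < d, ∀ i < b, |st d x n j i / st d x n j 0 - 1| ≤ ε / 2) →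
          ((fun i : Fin (l + 1) => x i) ∈ BasinM k l l ↔
            ∀ j < d, st d x n j 0 * mser c (fun i : Fin b => st d x n j i / st d x n j 0 - 1) =
              √2) := by
    intro k l hlt hv hd ha hb
    obtain ⟨a', b', h1, h2, h3, h4, h5, h6, h7⟩ := reduced_pair hlt hv
    rw [← hd] at h5 h6 h7
    have hbb : b' = b := by
      have : d * b' = d * b := by rw [← h7, hb, mul_comm]
      exact Nat.eq_of_mul_eq_mul_left h5 this
    have haa : a' = a := by
      have : d * a' = d * a := by rw [← h6, ha, mul_comm]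
      exact Nat.eq_of_mul_eq_mul_left h5 this
    subst hbb haa
    exact core8 h1 h2 h3 h4 h5 h6 h7 (series_gen h1.pos h3.le h4)
  rcases Nat.lt_or_gt_of_ne hkl with h | h
  · have hm : max k l = l := max_eq_right h.le
    have hn : min k l = k := min_eq_left h.le
    rw [hn] at ha
    obtain ⟨m, hm'⟩ : ∃ m, m = max k l := ⟨_, rfl⟩
    rw [← hm'] at hb ⊢
    obtain rfl : m = l := by omega
    obtain ⟨ε, c, g1, g2, g3, g4, g5⟩ := main k m h hv hd ha hb
    refine ⟨ε, c, g1, g2, g3, g4, fun x hx hr => g5 x hx fun j => ?_⟩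
    have := hr j
    rwa [Nat.add_sub_cancel] at this
  · have hn : min k l = l := min_eq_right h.le
    rw [hn] at ha
    obtain ⟨m, hm'⟩ : ∃ m, m = max k l := ⟨_, rfl⟩
    rw [← hm'] at hb ⊢
    have hm2 : max k l = k := max_eq_left h.le
    obtain rfl : m = k := by omega
    obtain ⟨ε, c, g1, g2, g3, g4, g5⟩ := main l m h hv.symm (by rw [hd, Nat.gcd_comm]) ha hb
    rw [BasinM_symm]
    refine ⟨ε, c, g1, g2, g3, g4, fun x hx hr => g5 x hx fun j => ?_⟩
    have := hr j
    rw [Nat.add_sub_cancel] at this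
    rw [this, add_comm]

end Pool.Agent.Lib_helper72.RBO
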