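import Pool.Agent.Lib_helper48.RBO.G1
import Pool.Agent.Lib_helper65.RBO.G3a
import Pool.Agent.Lib_helper65.RBO.G5
import Pool.Agent.Lib_helper72.RBO.SerG
import Pool.Agent.Lib_helper72.RBO.Det

/-!
# The general pair, with explicit radius and the equations which determine the power series
-/

namespace Pool.Agent.Lib_helper72.RBO

open Filter Topology
open Pool.Agent.Lib_helper65.RB Pool.Agent.Lib_helper65.RBO

/-- Contraction of the linear averaging recursion with the constants `K`, `η`. -/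
def LinK (a b K : ℕ) (η : ℝ) : Prop :=
  ∀ (u : ℕ → ℂ), (∀ n, u (n + b) = (u (n + b - a) + u n) / 2) →
      ∀ D : ℝ, (∀ i < b, ∀ j < b, ‖u i - u j‖ ≤ D) →
        ∀ i j, K ≤ i → K ≤ j → ‖u i - u j‖ ≤ (1 - η) * D

/-- The limit functional is a power series on the polydisc of radius `ε`. -/
def SerE (a b : ℕ) (ε : ℝ) : Prop :=
    ∃ (c : (Fin b →₀ ℕ) → ℝ), AbsConv c ε ∧
    ∀ z : Fin b → ℝ, (∀ i, |z i| ≤ ε) →
      LL a b (fun n => if h : n < b then 1 + z ⟨n, h⟩ else 1) = mser c z

theorem lin_contract9 {a b : ℕ} (ha : 0 < a) (hab : a ≤ b) (hc : Nat.Coprime a b) :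
    LinK a b (b + a * b) (1 / 2 ^ (a * b + b)) := by
  have hb0 : 0 < b := by omega
  · intro u hu D hD i j hi hj
    obtain ⟨ω, hω, hωe⟩ : ∃ ω : ℂ, ‖ω‖ = 1 ∧ (ω * (u i - u j)).re = ‖u i - u j‖ := by
      by_cases hz : u i - u j = 0
      · exact ⟨1, by simp, by simp [hz]⟩
      · refine ⟨(starRingEnd ℂ) (u i - u j) / ‖u i - u j‖, ?_, ?_⟩
        · have h0 : ‖u i - u j‖ ≠ 0 := norm_ne_zero_iff.2 hz
          rw [norm_div, Complex.norm_real, norm_norm, RCLike.norm_conj, div_self h0]
        · have h0 : (‖u i - u j‖ : ℂ) ≠ 0 := by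
            exact_mod_cast norm_ne_zero_iff.2 hz
          have : (starRingEnd ℂ) (u i - u j) / ‖u i - u j‖ * (u i - u j) =
              ((‖u i - u j‖ : ℝ) : ℂ) := by
            rw [div_mul_eq_mul_div, mul_comm, Complex.mul_conj, div_eq_iff h0,
              Complex.normSq_eq_norm_sq]
            push_cast
            ring
          rw [this, Complex.ofReal_re]
    have hr : ∀ n, (fun n => (ω * u n).re) (n + b) =
        ((fun n => (ω * u n).re) (n + b - a) + (fun n => (ω * u n).re) n) / 2 := by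
      intro n
      beta_reduce
      rw [hu n]
      have : ω * ((u (n + b - a) + u n) / 2) = (ω * u (n + b - a) + ω * u n) / 2 := by ring
      rw [this]
      simp
    have := Pool.Agent.Lib_helper65.RBO.lin_contract_real (r := fun n => (ω * u n).re) ha hab hc hr (D := D) (fun i hi j hj => by
      beta_reduce
      rw [← Complex.sub_re, ← mul_sub]
      refine (Complex.re_le_norm _).trans ?_
      rw [norm_mul, hω, one_mul]
      exact hD i hi j hj) hi hj
    beta_reduce at this
    rw [← Complex.sub_re, ← mul_sub, hωe] at this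
    exact this

/-- Discs which do not contain `0` are invariant under both means. -/
theorem cmean_ball {c x y : ℂ} {r : ℝ} (hr : r < ‖c‖) (hx : ‖x - c‖ ≤ r) (hy : ‖y - c‖ ≤ r)
    (n : ℕ) : ‖cmean n x y - c‖ ≤ r := by
  have hr0 : 0 ≤ r := (norm_nonneg _).trans hx
  unfold cmean
  split_ifs with h
  · have e : (x + y) / 2 - c = ((x - c) + (y - c)) * (1 / 2) := by ring
    have h3 : ‖(1 / 2 : ℂ)‖ = 1 / 2 := by simp
    rw [e, norm_mul, h3]
    have := norm_add_le (x - c) (y - c)
    linarith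
  · have hx0 : x ≠ 0 := by
      rintro rfl
      rw [zero_sub, norm_neg] at hx; linarith
    have hy0 : y ≠ 0 := by
      rintro rfl
      rw [zero_sub, norm_neg] at hy; linarith
    have key : ∀ w : ℂ, w ≠ 0 → ‖w - c‖ ≤ r → ‖1 - c * w⁻¹‖ ^ 2 ≤ r ^ 2 * ‖w⁻¹‖ ^ 2 := by
      intro w hw h1
      have e : 1 - c * w⁻¹ = (w - c) * w⁻¹ := by field_simp
      rw [e, norm_mul, mul_pow]
      exact mul_le_mul_of_nonneg_right (pow_le_pow_left₀ (norm_nonneg _) h1 2) (by positivity)
    have hp := key x hx0 hx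
    have hq := key y hy0 hy
    have hcr : 0 ≤ (‖c‖ ^ 2 - r ^ 2) * ‖x⁻¹ - y⁻¹‖ ^ 2 :=
      mul_nonneg (by nlinarith [norm_nonneg c]) (by positivity)
    have hs : ‖1 - c * ((x⁻¹ + y⁻¹) / 2)‖ ^ 2 ≤ r ^ 2 * ‖(x⁻¹ + y⁻¹) / 2‖ ^ 2 := by
      generalize x⁻¹ = p at *
      generalize y⁻¹ = q at *
      have e1 : (p + q) / 2 = (((1 / 2 : ℝ) : ℂ)) * (p + q) := by push_cast; ring
      rw [e1]
      simp only [Complex.sq_norm, Complex.normSq_apply, Complex.sub_re, Complex.sub_im,
        Complex.mul_re, Complex.mul_im, Complex.add_re, Complex.add_im, Complex.one_re,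
        Complex.one_im, Complex.ofReal_re, Complex.ofReal_im] at hp hq hcr ⊢
      nlinarith [hp, hq, hcr]
    have hs0 : (x⁻¹ + y⁻¹) / 2 ≠ 0 := by
      intro h0
      rw [h0] at hs
      norm_num at hs
    have hxy : x + y ≠ 0 := by
      intro h0
      apply hs0
      have : x⁻¹ + y⁻¹ = (x + y) * (x⁻¹ * y⁻¹) := by field_simp; ring
      rw [this, h0, zero_mul, zero_div]
    have e2 : 2 * x * y / (x + y) - c =
        (1 - c * ((x⁻¹ + y⁻¹) / 2)) * ((x⁻¹ + y⁻¹) / 2)⁻¹ := by
      have e3 : (x⁻¹ + y⁻¹) / 2 = (x + y) / (2 * x * y) := by field_simp; ring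
      rw [sub_mul, mul_assoc c, mul_inv_cancel₀ hs0, mul_one, one_mul, e3, inv_div]
    rw [e2, norm_mul, norm_inv]
    have hpos : 0 < ‖(x⁻¹ + y⁻¹) / 2‖ := norm_pos_iff.2 hs0
    rw [← div_eq_mul_inv, div_le_iff₀ hpos]
    refine le_of_sq_le_sq ?_ (by positivity)
    rw [mul_pow]; exact hs

theorem cmean_avg {x y : ℂ} (hx : ‖x - 1‖ ≤ 1 / 2) (hy : ‖y - 1‖ ≤ 1 / 2) (n : ℕ) :
    ‖cmean n x y - (x + y) / 2‖ ≤ ‖x - y‖ ^ 2 / 2 := by
  unfold cmean
  split_ifs with h
  · rw [sub_self, norm_zero]; positivity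
  · have h1 : 1 ≤ ‖x + y‖ := by
      have e : x + y = 2 - ((1 - x) + (1 - y)) := by ring
      have h2 := norm_sub_norm_le (2 : ℂ) ((1 - x) + (1 - y))
      rw [← e] at h2
      have h3 := norm_add_le (1 - x) (1 - y)
      rw [norm_sub_rev] at hx hy
      have h4 : ‖(2 : ℂ)‖ = 2 := by simp
      linarith
    have h0 : x + y ≠ 0 := by
      intro h0; rw [h0, norm_zero] at h1; linarith
    have e : 2 * x * y / (x + y) - (x + y) / 2 = - ((x - y) ^ 2 / (2 * (x + y))) := by
      field_simp; ring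
    have h4 : ‖(2 : ℂ)‖ = 2 := by simp
    rw [e, norm_neg, norm_div, norm_pow, norm_mul, h4]
    exact div_le_div_of_nonneg_left (by positivity) (by norm_num) (by linarith)

theorem cwg_rec {a b : ℕ} (ha : 0 < a) (hab : a ≤ b) (z : Fin b → ℂ) (n : ℕ) :
    cwg a b z (n + b) = cmean (n + b) (cwg a b z (n + b - a)) (cwg a b z n) := by
  conv_lhs => rw [cwg]
  rw [dif_neg (by omega), if_neg (by omega), Nat.add_sub_cancel]

/-- the linear recursion -/
noncomputable def ulin (a b : ℕ) (f : ℕ → ℂ) (n : ℕ) : ℂ :=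
  if n < b ∨ a = 0 ∨ b = 0 then f n else (ulin a b f (n - a) + ulin a b f (n - b)) / 2
termination_by n
decreasing_by all_goals omega

theorem ulin_rec {a b : ℕ} (ha : 0 < a) (hab : a ≤ b) (f : ℕ → ℂ) (n : ℕ) :
    ulin a b f (n + b) = (ulin a b f (n + b - a) + ulin a b f n) / 2 := by
  conv_lhs => rw [ulin]
  rw [if_neg (by omega), Nat.add_sub_cancel]

theorem ulin_init {a b : ℕ} (f : ℕ → ℂ) {n : ℕ} (h : n < b) : ulin a b f n = f n := by
  rw [ulin, if_pos (Or.inl h)]

theorem future {a b : ℕ} (ha : 0 < a) (hab : a ≤ b) (z : Fin b → ℂ) {c : ℂ} {r : ℝ}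
    (hr : r < ‖c‖) (n : ℕ) (h : ∀ i < b, ‖cwg a b z (n + i) - c‖ ≤ r) :
    ∀ i, ‖cwg a b z (n + i) - c‖ ≤ r := by
  intro i
  induction i using Nat.strong_induction_on with
  | _ i ih =>
  by_cases h1 : i < b
  · exact h i h1
  · obtain ⟨m, rfl⟩ : ∃ m, i = m + b := ⟨i - b, by omega⟩
    rw [← add_assoc, cwg_rec ha hab]
    apply cmean_ball hr
    · have := ih (m + b - a) (by omega)
      rwa [show n + m + b - a = n + (m + b - a) by omega]
    · exact ih m (by omega)

theorem compare {a b : ℕ} (ha : 0 < a) (hab : a ≤ b) (z : Fin b → ℂ) {E : ℝ} (n : ℕ) (hE0 : 0 ≤ E)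
    (h1 : ∀ i, ‖cwg a b z i - 1‖ ≤ 1 / 2)
    (hE : ∀ i j, ‖cwg a b z (n + i) - cwg a b z (n + j)‖ ^ 2 / 2 ≤ E) :
    ∀ i, ‖cwg a b z (n + i) - ulin a b (fun j => cwg a b z (n + j)) i‖ ≤ i * E := by
  intro i
  induction i using Nat.strong_induction_on with
  | _ i ih =>
  by_cases h2 : i < b
  · rw [ulin_init _ h2, sub_self, norm_zero]; positivity
  · obtain ⟨m, rfl⟩ : ∃ m, i = m + b := ⟨i - b, by omega⟩
    have g1 := ih (m + b - a) (by omega)
    have g2 := ih m (by omega)
    have e1 : cwg a b z (n + (m + b)) =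
        cmean (n + m + b) (cwg a b z (n + (m + b - a))) (cwg a b z (n + m)) := by
      rw [← add_assoc, cwg_rec ha hab, show n + m + b - a = n + (m + b - a) by omega]
    have g3 := cmean_avg (h1 (n + (m + b - a))) (h1 (n + m)) (n + m + b)
    rw [← e1] at g3
    have g4 := hE (m + b - a) m
    rw [ulin_rec ha hab]
    set U := ulin a b (fun j => cwg a b z (n + j)) with hU
    have e2 : cwg a b z (n + (m + b)) - (U (m + b - a) + U m) / 2 =
        (cwg a b z (n + (m + b)) - (cwg a b z (n + (m + b - a)) + cwg a b z (n + m)) / 2) +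
        ((cwg a b z (n + (m + b - a)) - U (m + b - a)) + (cwg a b z (n + m) - U m)) * (1 / 2) := by
      ring
    rw [e2]
    have h3 : ‖(1 / 2 : ℂ)‖ = 1 / 2 := by simp
    have g5 := norm_add_le
      (cwg a b z (n + (m + b)) - (cwg a b z (n + (m + b - a)) + cwg a b z (n + m)) / 2)
      (((cwg a b z (n + (m + b - a)) - U (m + b - a)) + (cwg a b z (n + m) - U m)) * (1 / 2))
    have g6 := norm_add_le (cwg a b z (n + (m + b - a)) - U (m + b - a)) (cwg a b z (n + m) - U m)
    rw [norm_mul, h3] at g5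
    have c1 : ((m + b - a : ℕ) : ℝ) * E ≤ ((m + b : ℕ) - 1 : ℝ) * E := by
      apply mul_le_mul_of_nonneg_right _ hE0
      have : (m + b - a : ℕ) + 1 ≤ m + b := by omega
      have : ((m + b - a : ℕ) : ℝ) + 1 ≤ ((m + b : ℕ) : ℝ) := by exact_mod_cast this
      linarith
    have c2 : (m : ℝ) * E ≤ ((m + b : ℕ) - 1 : ℝ) * E := by
      apply mul_le_mul_of_nonneg_right _ hE0
      have : m + 1 ≤ m + b := by omega
      have : (m : ℝ) + 1 ≤ ((m + b : ℕ) : ℝ) := by exact_mod_cast this
      linarith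
    have c3 : ((m + b : ℕ) - 1 : ℝ) * E = ((m + b : ℕ) : ℝ) * E - E := by ring
    linarith

/-- Geometric convergence on the polydisc of radius `R`. -/
theorem cwg_conv9 {a b K : ℕ} {η R : ℝ} (ha : 0 < a) (hab : a ≤ b) (h0 : 0 < η) (h1 : η < 1)
    (hu : LinK a b K η) (hR0 : 0 < R) (hRM' : 16 * (K + b + 1 : ℝ) * R ≤ η) :
    ∃ C ρ : ℝ, 0 < C ∧ 0 < ρ ∧ ρ < 1 ∧ ∀ z : Fin b → ℂ, (∀ i, ‖z i‖ ≤ R) → ∀ n : ℕ,
      ‖cwg a b z n - 1‖ ≤ 1 / 4 ∧ ‖cwg a b z (n + 1) - cwg a b z n‖ ≤ C * ρ ^ n := by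
  set M : ℝ := (K + b + 1 : ℝ) with hM
  have hM1 : 1 ≤ M := by
    have : (0 : ℝ) ≤ (K : ℝ) + b := by positivity
    rw [hM]; linarith
  have hRM : 16 * M * R ≤ η := hRM'
  have hR1 : R ≤ 1 / 16 := by
    by_contra hc
    push Not at hc
    nlinarith
  -- one step
  have step : ∀ z : Fin b → ℂ, (∀ i, ‖cwg a b z i - 1‖ ≤ R) → ∀ n : ℕ, ∀ D : ℝ,
      D ≤ 2 * R → (∀ i < b, ∀ j < b, ‖cwg a b z (n + i) - cwg a b z (n + j)‖ ≤ D) →
      ∀ i < b, ∀ j < b, ‖cwg a b z (n + (K + 1) + i) - cwg a b z (n + (K + 1) + j)‖ ≤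
        (1 - η / 2) * D := by
    intro z hz n D hD hw i hi j hj
    have hb : 0 < b := by omega
    have hD0 : 0 ≤ D := (norm_nonneg _).trans (hw 0 hb 0 hb)
    have hfar : D < ‖cwg a b z (n + 0)‖ := by
      have g1 := hz (n + 0)
      have g2 := norm_sub_norm_le (1 : ℂ) (1 - cwg a b z (n + 0))
      rw [sub_sub_cancel, norm_sub_rev, norm_one] at g2
      rw [norm_sub_rev] at g2
      rw [norm_sub_rev] at g1
      linarith
    have fut := future ha hab z hfar n (fun i hi => hw i hi 0 hb)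
    have hE : ∀ i j, ‖cwg a b z (n + i) - cwg a b z (n + j)‖ ^ 2 / 2 ≤ 2 * D ^ 2 := by
      intro i j
      have g1 := fut i
      have g2 := fut j
      have g3 : ‖cwg a b z (n + i) - cwg a b z (n + j)‖ ≤ 2 * D := by
        rw [norm_sub_rev] at g2
        have := norm_add_le (cwg a b z (n + i) - cwg a b z (n + 0))
          (cwg a b z (n + 0) - cwg a b z (n + j))
        rw [sub_add_sub_cancel] at this
        linarith
      have g4 := pow_le_pow_left₀ (norm_nonneg _) g3 2
      linarith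
    have hcmp := compare ha hab z n (by positivity) (fun i => (hz i).trans (by linarith)) hE
    have hlin := hu (ulin a b (fun j => cwg a b z (n + j))) (ulin_rec ha hab _) D (by
      intro i hi j hj
      rw [ulin_init _ hi, ulin_init _ hj]
      exact hw i hi j hj) (K + 1 + i) (K + 1 + j) (by omega) (by omega)
    have k1 := hcmp (K + 1 + i)
    have k2 := hcmp (K + 1 + j)
    rw [← add_assoc, ← add_assoc] at k1 k2
    rw [← add_assoc n K 1]
    set U := ulin a b (fun j => cwg a b z (n + j)) with hU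
    have k3 : ‖cwg a b z (n + K + 1 + i) - cwg a b z (n + K + 1 + j)‖ ≤
        ‖cwg a b z (n + K + 1 + i) - U (K + 1 + i)‖ + ‖U (K + 1 + i) - U (K + 1 + j)‖ +
        ‖cwg a b z (n + K + 1 + j) - U (K + 1 + j)‖ := by
      rw [norm_sub_rev (cwg a b z (n + K + 1 + j))]
      have e : cwg a b z (n + K + 1 + i) - cwg a b z (n + K + 1 + j) =
        (cwg a b z (n + K + 1 + i) - U (K + 1 + i)) + (U (K + 1 + i) - U (K + 1 + j)) +
        (U (K + 1 + j) - cwg a b z (n + K + 1 + j)) := by ring
      rw [e]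
      exact norm_add₃_le
    have c1 : ((K + 1 + i : ℕ) : ℝ) ≤ M := by
      have : (i : ℝ) ≤ b := by exact_mod_cast hi.le
      push_cast; rw [hM]; linarith
    have c2 : ((K + 1 + j : ℕ) : ℝ) ≤ M := by
      have : (j : ℝ) ≤ b := by exact_mod_cast hj.le
      push_cast; rw [hM]; linarith
    have d1 : ((K + 1 + i : ℕ) : ℝ) * (2 * D ^ 2) ≤ M * (2 * D ^ 2) :=
      mul_le_mul_of_nonneg_right c1 (by positivity)
    have d2 : ((K + 1 + j : ℕ) : ℝ) * (2 * D ^ 2) ≤ M * (2 * D ^ 2) :=
      mul_le_mul_of_nonneg_right c2 (by positivity)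
    have d3 : M * (2 * D ^ 2) ≤ M * (2 * (2 * R * D)) := by
      apply mul_le_mul_of_nonneg_left _ (by linarith)
      nlinarith
    have d4 : M * (2 * (2 * R * D)) ≤ η / 4 * D := by nlinarith
    have d5 : (1 - η / 2) * D = (1 - η) * D + η / 4 * D + η / 4 * D := by ring
    linarith
  -- iteration
  have hη2 : 0 < 1 - η / 2 := by linarith
  set L : ℕ := K + 1 with hL
  have iter : ∀ z : Fin b → ℂ, (∀ i, ‖cwg a b z i - 1‖ ≤ R) → ∀ t : ℕ,
      ∀ i < b, ∀ j < b, ‖cwg a b z (t * L + i) - cwg a b z (t * L + j)‖ ≤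
        (1 - η / 2) ^ t * (2 * R) := by
    intro z hz t
    induction t with
    | zero =>
      intro i _ j _
      have g1 := hz (0 * L + i)
      have g2 := hz (0 * L + j)
      rw [norm_sub_rev] at g2
      have := norm_add_le (cwg a b z (0 * L + i) - 1) (1 - cwg a b z (0 * L + j))
      rw [sub_add_sub_cancel] at this
      rw [pow_zero, one_mul]
      linarith
    | succ t ih =>
      intro i hi j hj
      have hle : (1 - η / 2) ^ t * (2 * R) ≤ 2 * R := by
        have := pow_le_one₀ (n := t) hη2.le (by linarith : 1 - η / 2 ≤ 1)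
        nlinarith
      have := step z hz (t * L) _ hle ih i hi j hj
      rw [show (t + 1) * L + i = t * L + (K + 1) + i by rw [hL]; ring,
        show (t + 1) * L + j = t * L + (K + 1) + j by rw [hL]; ring]
      refine this.trans (le_of_eq ?_)
      rw [pow_succ]; ring
  have hL0 : (0 : ℝ) < L := by rw [hL]; positivity
  set ρ : ℝ := 1 - η / (2 * L) with hρ
  have hL1 : (1 : ℝ) ≤ L := by rw [hL]; push_cast; linarith [(Nat.cast_nonneg K : (0 : ℝ) ≤ K)]
  have hq : 0 < η / (2 * L) := by positivity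
  have hq2 : η / (2 * L) < 1 := by rw [div_lt_one (by positivity)]; linarith
  have hρ0 : 0 < ρ := by rw [hρ]; linarith
  have hρ1 : ρ < 1 := by rw [hρ]; linarith
  have hbern : 1 - η / 2 ≤ ρ ^ L := by
    have := one_add_mul_le_pow (a := -(η / (2 * L))) (by linarith) L
    have e : (1 : ℝ) + L * -(η / (2 * L)) = 1 - η / 2 := by field_simp; ring
    rw [e] at this
    rw [hρ, sub_eq_add_neg]
    exact this
  refine ⟨4 * R / ρ ^ L, ρ, by positivity, hρ0, hρ1, fun z hz n => ?_⟩
  have hz1 : ∀ i, ‖cwg a b z i - 1‖ ≤ R := by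
    intro i
    have := future ha hab z (c := 1) (r := R) (by rw [norm_one]; linarith) 0 (by
      intro i hi
      rw [zero_add, cwg, dif_pos hi, add_sub_cancel_left]
      exact hz _) i
    rwa [zero_add] at this
  refine ⟨(hz1 n).trans (by linarith), ?_⟩
  have hb : 0 < b := by omega
  set t := n / L with ht
  have hw := iter z hz1 t
  have hfar : (1 - η / 2) ^ t * (2 * R) < ‖cwg a b z (t * L + 0)‖ := by
    have hle : (1 - η / 2) ^ t * (2 * R) ≤ 2 * R := by
      have := pow_le_one₀ (n := t) hη2.le (by linarith : 1 - η / 2 ≤ 1)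
      nlinarith
    have g1 := hz1 (t * L + 0)
    have g2 := norm_sub_norm_le (1 : ℂ) (1 - cwg a b z (t * L + 0))
    rw [sub_sub_cancel, norm_one] at g2
    rw [norm_sub_rev] at g1
    linarith
  have fut := future ha hab z hfar (t * L) (fun i hi => hw i hi 0 hb)
  have hLn : 0 < L := by omega
  have hdm := Nat.div_add_mod n L
  have hmod := Nat.mod_lt n hLn
  have e1 : n = t * L + n % L := by rw [ht, mul_comm]; exact hdm.symm
  have g1 := fut (n % L)
  have g2 := fut (n % L + 1)
  rw [← e1] at g1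
  rw [← add_assoc, ← e1] at g2
  have g3 : ‖cwg a b z (n + 1) - cwg a b z n‖ ≤ 2 * ((1 - η / 2) ^ t * (2 * R)) := by
    rw [norm_sub_rev] at g1
    have := norm_add_le (cwg a b z (n + 1) - cwg a b z (t * L + 0))
      (cwg a b z (t * L + 0) - cwg a b z n)
    rw [sub_add_sub_cancel] at this
    linarith
  refine g3.trans ?_
  have g4 : (1 - η / 2) ^ t ≤ ρ ^ (L * t) := by
    rw [pow_mul]
    exact pow_le_pow_left₀ hη2.le hbern t
  have g5 : ρ ^ (L * t + L) ≤ ρ ^ n := by
    apply pow_le_pow_of_le_one hρ0.le hρ1.le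
    rw [mul_comm]; omega
  have hρL : 0 < ρ ^ L := by positivity
  have g6 : ρ ^ (L * t) ≤ ρ ^ n / ρ ^ L := by
    rw [le_div_iff₀ hρL, ← pow_add]; exact g5
  calc 2 * ((1 - η / 2) ^ t * (2 * R)) = 4 * R * (1 - η / 2) ^ t := by ring
    _ ≤ 4 * R * (ρ ^ n / ρ ^ L) := mul_le_mul_of_nonneg_left (g4.trans g6) (by positivity)
    _ = 4 * R / ρ ^ L * ρ ^ n := by ring

theorem series_gen9 {a b : ℕ} {R : ℝ} (ha : 0 < a) (hab : a ≤ b) (hc : Nat.Coprime a b)
    (hR : 0 < R) (hR2 : R ≤ 1 / 2) (hG3 : ∃ C ρ : ℝ, 0 < C ∧ 0 < ρ ∧ ρ < 1 ∧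
      ∀ z : Fin b → ℂ, (∀ i, ‖z i‖ ≤ R) → ∀ n : ℕ,
      ‖cwg a b z n - 1‖ ≤ 1 / 4 ∧ ‖cwg a b z (n + 1) - cwg a b z n‖ ≤ C * ρ ^ n) :
    SerE a b (R / 2) := by
  obtain ⟨C, ρ, hC, hρ, hρ1, h⟩ := hG3
  -- the limit function
  have hlim : ∀ z : Fin b → ℂ, (∀ i, ‖z i‖ ≤ R) → ∃ L : ℂ, Tendsto (cwg a b z) atTop (𝓝 L) := by
    intro z hz
    have hcs : CauchySeq (cwg a b z) := cauchySeq_of_le_geometric ρ C hρ1 (fun n => by
      rw [dist_comm, dist_eq_norm]; exact (h z hz n).2)
    exact cauchySeq_tendsto_of_complete hcs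
  obtain ⟨F, hF⟩ : ∃ F : (Fin b → ℂ) → ℂ, ∀ z : Fin b → ℂ, (∀ i, ‖z i‖ ≤ R) →
      Tendsto (cwg a b z) atTop (𝓝 (F z)) :=
    ⟨fun z => limUnder atTop (cwg a b z), fun z hz => tendsto_nhds_limUnder (hlim z hz)⟩
  have hFn : ∀ z : Fin b → ℂ, (∀ i, ‖z i‖ ≤ R) → ∀ n,
      ‖F z - cwg a b z n‖ ≤ C * ρ ^ n / (1 - ρ) := by
    intro z hz n
    have := dist_le_of_le_geometric_of_tendsto ρ C hρ1 (fun n => by
      rw [dist_comm, dist_eq_norm]; exact (h z hz n).2) (hF z hz) n
    rwa [dist_comm, dist_eq_norm] at this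
  have hApp : AppM R F := by
    apply appM_lim
    intro e he
    have h1 : Tendsto (fun n : ℕ => C * ρ ^ n / (1 - ρ)) atTop (𝓝 0) := by
      have := ((tendsto_pow_atTop_nhds_zero_of_lt_one hρ.le hρ1).const_mul C).div_const (1 - ρ)
      simpa using this
    obtain ⟨n, hn⟩ := (h1.eventually (gt_mem_nhds he)).exists
    exact ⟨fun z => cwg a b z n, appM_cwg (fun z hz n => (h z hz n).1) n,
      fun z hz => (hFn z hz n).trans hn.le⟩
  obtain ⟨c, hc'⟩ := Pool.Agent.Lib_helper48.RBO.appM_series hR hApp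
  obtain ⟨hsum, heq⟩ := hc' (R / 2) (by linarith) (by linarith)
  refine ⟨fun α => (c α).re, ?_, ?_⟩
  · unfold AbsConv
    refine Summable.of_nonneg_of_le (fun p => by positivity) (fun p => ?_) hsum
    exact mul_le_mul_of_nonneg_right (Complex.abs_re_le_norm _) (by positivity)
  · intro z hz
    have hz' : ∀ i, ‖((z i : ℝ) : ℂ)‖ ≤ R / 2 := fun i => by
      rw [Complex.norm_real]; exact hz i
    have h1 := hF (fun i => (z i : ℂ)) (fun i => by have := hz' i; linarith)
    have hvp : ∀ n < b, 0 < (fun n => if h : n < b then 1 + z ⟨n, h⟩ else 1) n := by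
      intro n hn
      simp only [dif_pos hn]
      have := (abs_le.1 (hz ⟨n, hn⟩)).1
      linarith
    have h2 := LL_tendsto ha hab hc hvp
    have h3 : Tendsto (cwg a b (fun i => (z i : ℂ))) atTop
        (𝓝 ((LL a b (fun n => if h : n < b then 1 + z ⟨n, h⟩ else 1) : ℝ) : ℂ)) := by
      have h4 := (Complex.continuous_ofReal.tendsto _).comp h2
      refine h4.congr (fun n => ?_)
      rw [Function.comp_apply, cwg_real]
    have h5 := tendsto_nhds_unique h1 h3
    rw [heq (fun i => (z i : ℂ)) hz'] at h5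
    have h6 := congrArg Complex.re h5
    rw [Complex.ofReal_re] at h6
    rw [← h6]
    have hsm : Summable (fun α : Fin b →₀ ℕ => c α * ∏ i, ((z i : ℝ) : ℂ) ^ α i) := by
      refine Summable.of_norm_bounded hsum (fun α => ?_)
      rw [norm_mul, norm_prod, ← Finset.prod_pow_eq_pow_sum]
      refine mul_le_mul_of_nonneg_left ?_ (norm_nonneg _)
      apply Finset.prod_le_prod
      · intro i _; positivity
      · intro i _
        rw [norm_pow]
        exact pow_le_pow_left₀ (norm_nonneg _) (hz' i) _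
    rw [Complex.re_tsum hsm]
    unfold mser
    apply tsum_congr
    intro α
    have e : c α * ∏ i, ((z i : ℝ) : ℂ) ^ α i = c α * ((∏ i, z i ^ α i : ℝ) : ℂ) := by
      push_cast; ring
    rw [e, Complex.re_mul_ofReal]

/-- The explicit radius. -/
theorem series_eps {a b : ℕ} (ha : 0 < a) (hab : a ≤ b) (hc : Nat.Coprime a b) :
    SerE a b (1 / 4 ^ (a * b + b + 3)) := by
  have hb0 : 0 < b := by omega
  have e : (1 / 4 ^ (a * b + b + 3) : ℝ) = (2 / 4 ^ (a * b + b + 3)) / 2 := by ring
  rw [e]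
  set N := a * b + b with hN
  have hpow : (4 : ℝ) ^ (N + 3) = 2 ^ N * (64 * 2 ^ N) := by
    have : (4 : ℝ) = 2 ^ 2 := by norm_num
    rw [this, ← pow_mul]
    have e3 : 2 * (N + 3) = N + (N + 6) := by ring
    rw [e3, pow_add, pow_add]
    norm_num
    ring
  have hlt : N + b + 1 ≤ 2 ^ (N + 1) := by
    have h1 : 2 * N + 1 ≤ 2 ^ (N + 1) := by
      have := Nat.lt_two_pow_self (n := N)
      rw [pow_succ]; omega
    have : b ≤ N := by rw [hN]; exact Nat.le_add_left _ _
    omega
  have hM : (((b + a * b : ℕ) : ℝ) + b + 1) ≤ 2 * 2 ^ N := by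
    have h2 : ((N + b + 1 : ℕ) : ℝ) ≤ ((2 ^ (N + 1) : ℕ) : ℝ) := by exact_mod_cast hlt
    have e4 : (((b + a * b : ℕ) : ℝ) + b + 1) = ((N + b + 1 : ℕ) : ℝ) := by
      rw [hN]; push_cast; ring
    rw [e4]
    refine h2.trans (le_of_eq ?_)
    push_cast; ring
  have hp : (0 : ℝ) < 2 ^ N := by positivity
  apply series_gen9 ha hab hc (by positivity)
  · rw [div_le_iff₀ (by positivity), hpow]
    have : (1 : ℝ) ≤ 2 ^ N := one_le_pow₀ (by norm_num)
    nlinarith
  · refine cwg_conv9 (K := b + a * b) (η := 1 / 2 ^ N) ha hab (by positivity) ?_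
      (lin_contract9 ha hab hc) (by positivity) ?_
    · rw [div_lt_one hp]
      exact one_lt_pow₀ (by norm_num) (by omega)
    · rw [hpow]
      have e5 : 16 * (((b + a * b : ℕ) : ℝ) + b + 1) * (2 / (2 ^ N * (64 * 2 ^ N))) =
          (((b + a * b : ℕ) : ℝ) + b + 1) / (2 * 2 ^ N) * (1 / 2 ^ N) := by
        field_simp; ring
      rw [e5]
      have : (((b + a * b : ℕ) : ℝ) + b + 1) / (2 * 2 ^ N) ≤ 1 := by
        rw [div_le_one (by positivity)]; exact hM
      have h3 : (0 : ℝ) ≤ 1 / 2 ^ N := by positivity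
      nlinarith

/-- The equations which determine the power series (for odd `b`). -/
def Eqs (a b : ℕ) (ε : ℝ) (c : (Fin b →₀ ℕ) → ℝ) : Prop :=
  (∀ t : ℝ, |t - 1| ≤ ε → mser c (fun _ : Fin b => t - 1) = t) ∧
  ∀ s : ℕ → ℝ, (∀ i < b, |s i - 1| ≤ ε / 2) → 2 / s b = 1 / s (b - a) + 1 / s 0 →
    mser c (fun i : Fin b => s i - 1) * mser c (fun i : Fin b => 1 / s (i + 1) - 1) = 1

theorem eqs {a b : ℕ} (ha : 0 < a) (hab : a ≤ b) (hc : Nat.Coprime a b) (hb : Odd b) {ε : ℝ}
    (h0 : 0 < ε) (h1 : ε < 1) {c : (Fin b →₀ ℕ) → ℝ}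
    (hser : ∀ z : Fin b → ℝ, (∀ i, |z i| ≤ ε) →
      LL a b (fun n => if h : n < b then 1 + z ⟨n, h⟩ else 1) = mser c z) : Eqs a b ε c := by
  constructor
  · intro t ht
    have tp : 0 < t := by have := (abs_le.1 ht).1; linarith
    rw [← hser _ (fun _ => ht)]
    have e : LL a b (fun n => if h : n < b then 1 + (t - 1) else 1) = LL a b (fun _ => t * 1) := by
      apply LL_congr ha hab hc
      · intro n hn
        simp only [dif_pos hn]; linarith
      · intro n hn
        simp only [dif_pos hn]; ring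
    rw [e, LL_smul ha hab hc (fun _ _ => one_pos) tp, LL_one ha hab hc, mul_one]
  · intro s hs hsb
    have hb0 : 0 < b := by omega
    have hsp : ∀ i < b, 1 / 2 ≤ s i := fun i hi => by
      have := (abs_le.1 (hs i hi)).1; linarith
    have hinv : ∀ i < b, |1 / s i - 1| ≤ ε := by
      intro i hi
      have g := hsp i hi
      have g0 : 0 < s i := by linarith
      have e : 1 / s i - 1 = (1 - s i) / s i := by field_simp
      rw [e, abs_div, abs_of_pos g0, div_le_iff₀ g0, abs_sub_comm]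
      have := hs i hi
      nlinarith
    have hinvb : |1 / s b - 1| ≤ ε := by
      have e : 1 / s b - 1 = ((1 / s (b - a) - 1) + (1 / s 0 - 1)) / 2 := by
        have : 1 / s b = (2 / s b) / 2 := by ring
        rw [this, hsb]; ring
      rw [e, abs_div, abs_two]
      have g1 := hinv (b - a) (by omega)
      have g2 := hinv 0 hb0
      have := abs_add_le (1 / s (b - a) - 1) (1 / s 0 - 1)
      linarith
    have hall : ∀ i ≤ b, |1 / s i - 1| ≤ ε := fun i hi => by
      rcases hi.lt_or_eq with h | rfl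
      · exact hinv i h
      · exact hinvb
    set w : ℕ → ℝ := wsol a b s with hw
    have hW : IsW a b w := wsol_isW ha hab s
    have hw0 : ∀ n < b, w n = s n := fun n hn => wsol_init hn
    have hwp : ∀ n < b, 0 < w n := fun n hn => by
      rw [hw0 n hn]; have := hsp n hn; linarith
    have hwb : w b = s b := by
      have g := hW 0
      have hodd : ¬ Even (0 + b) := by rw [zero_add]; exact Nat.not_even_iff_odd.2 hb
      unfold mean at g
      rw [if_neg hodd] at g
      rw [zero_add] at g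
      rw [g, hw0 _ (by omega), hw0 _ hb0]
      have p1 := hsp (b - a) (by omega)
      have p2 := hsp 0 hb0
      have q1 : s (b - a) ≠ 0 := by intro h; rw [h] at p1; norm_num at p1
      have q2 : s 0 ≠ 0 := by intro h; rw [h] at p2; norm_num at p2
      have q3 : s (b - a) + s 0 ≠ 0 := by intro h; linarith
      have q4 : s b ≠ 0 := by
        intro h
        rw [h, div_zero] at hsb
        have r1 : 0 < 1 / s (b - a) := by apply one_div_pos.2; linarith
        have r2 : 0 < 1 / s 0 := by apply one_div_pos.2; linarith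
        linarith
      field_simp at hsb ⊢
      linarith
    have v1 : LL a b w = mser c (fun i : Fin b => s i - 1) := by
      rw [← hser _ (fun i => (hs i i.2).trans (by linarith))]
      apply LL_congr ha hab hc hwp
      intro n hn
      rw [dif_pos hn, hw0 n hn]; simp only; ring
    have v2 : LL a b (fun n => 1 / w (n + 1)) = mser c (fun i : Fin b => 1 / s (i + 1) - 1) := by
      rw [← hser _ (fun i => hall (i + 1) i.2)]
      have e : ∀ n < b, w (n + 1) = s (n + 1) := by
        intro n hn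
        rcases (show n + 1 ≤ b by omega).lt_or_eq with h | h
        · exact hw0 _ h
        · rw [h, hwb]
      have hpos := hW.pos (by omega) ha hab hwp
      apply LL_congr ha hab hc (fun n _ => one_div_pos.2 (hpos _))
      intro n hn
      rw [dif_pos hn, e n hn]; simp only; ring
    have v3 := LL_shift_odd ha hab hc hW hwp (N := 1) odd_one
    have v4 : LL a b (fun n => 2 / w (n + 1)) = 2 * LL a b (fun n => 1 / w (n + 1)) := by
      have hpos := hW.pos (by omega) ha hab hwp
      rw [← LL_smul ha hab hc (fun n _ => one_div_pos.2 (hpos _)) two_pos]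
      congr 1
      funext n; ring
    have v5 : LL a b w ≠ 0 := (LL_pos ha hab hc hwp).ne'
    rw [v4] at v3
    rw [← v1, ← v2]
    field_simp at v3
    linarith

theorem determined {a b : ℕ} (ha : 0 < a) (hab : a ≤ b) (hc : Nat.Coprime a b) (hb : Odd b)
    {ε : ℝ} (h0 : 0 < ε) (h1 : ε < 1) {G : (Fin b → ℝ) → ℝ}
    (hGc : ContinuousOn G {s | ∀ i, |s i - 1| ≤ ε}) (hG : Determining a b ε G)
    {s : ℕ → ℝ} (hs : ∀ i < b, |s i - 1| ≤ ε / 4) : G (fun i => s i) = LL a b s := by
  obtain ⟨hG0, hG1⟩ := hG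
  have hb0 : 0 < b := by omega
  set w : ℕ → ℝ := wsol a b s with hw
  have hW : IsW a b w := wsol_isW ha hab s
  have hw0 : ∀ n < b, w n = s n := fun n hn => wsol_init hn
  have hband : ∀ n, 1 - ε / 4 ≤ w n ∧ w n ≤ 1 + ε / 4 := by
    intro n
    apply hW.band hb0 ha hab (k := 0) (by linarith) _ n (Nat.zero_le n)
    intro n _ hn
    rw [zero_add] at hn
    rw [hw0 n hn]
    have := abs_le.1 (hs n hn)
    constructor <;> linarith [this.1, this.2]
  have hwp : ∀ n, 0 < w n := fun n => by have := (hband n).1; linarith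
  have hwn : ∀ n, w n ≠ 0 := fun n => (hwp n).ne'
  have hnear : ∀ n, |w n - 1| ≤ ε / 2 := fun n => by
    rw [abs_le]; have := hband n; constructor <;> linarith [this.1, this.2]
  have hinv : ∀ n, |1 / w n - 1| ≤ ε / 2 := by
    intro n
    have e : 1 / w n - 1 = (1 - w n) / w n := by have := hwn n; field_simp
    have g := hband n
    rw [e, abs_div, abs_of_pos (hwp n), div_le_iff₀ (hwp n), abs_le]
    constructor <;> nlinarith [g.1, g.2]
  -- even step
  have step1 : ∀ n, Even n → G (fun i : Fin b => w (n + i)) *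
      G (fun i : Fin b => 1 / w (n + (i + 1))) = 1 := by
    intro n hn
    apply hG1 (fun i => w (n + i)) (fun i _ => hnear _)
    have g := hW n
    have hodd : ¬ Even (n + b) := by
      rw [Nat.even_add]; simp [hn, Nat.not_even_iff_odd.2 hb]
    unfold mean at g
    rw [if_neg hodd] at g
    show 2 / w (n + b) = 1 / w (n + (b - a)) + 1 / w (n + 0)
    rw [g, show n + (b - a) = n + b - a by omega, add_zero]
    have q1 := hwn (n + b - a)
    have q2 := hwn n
    have q3 : w (n + b - a) + w n ≠ 0 := by have := hwp (n + b - a); have := hwp n; positivity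
    field_simp
    try ring
  have step2 : ∀ n, Even n → G (fun i : Fin b => 1 / w (n + (i + 1))) *
      G (fun i : Fin b => w (n + 2 + i)) = 1 := by
    intro n hn
    have g := hW (n + 1)
    have heven : Even (n + 1 + b) := by
      rw [Nat.even_add]
      have : ¬ Even (n + 1) := by rw [Nat.even_add_one]; simp [hn]
      simp [this, Nat.not_even_iff_odd.2 hb]
    unfold mean at g
    rw [if_pos heven] at g
    have key := hG1 (fun i => 1 / w (n + (i + 1))) (fun i _ => hinv _) (by
      show 2 / (1 / w (n + (b + 1))) = 1 / (1 / w (n + (b - a + 1))) + 1 / (1 / w (n + (0 + 1)))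
      rw [show n + (b + 1) = n + 1 + b by ring, g, show n + (b - a + 1) = n + 1 + b - a by omega,
        zero_add]
      have q1 := hwn (n + 1 + b - a)
      have q2 := hwn (n + 1)
      have q3 : w (n + 1 + b - a) + w (n + 1) ≠ 0 := by
        have := hwp (n + 1 + b - a); have := hwp (n + 1); positivity
      field_simp)
    simp only [one_div_one_div] at key
    have e : (fun i : Fin b => w (n + (i + 1 + 1))) = (fun i : Fin b => w (n + 2 + i)) := by
      funext i; congr 1; ring
    rw [e] at key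
    exact key
  have hconst : ∀ n, G (fun i : Fin b => w (2 * n + i)) = G (fun i : Fin b => w i) := by
    intro n
    induction n with
    | zero => simp
    | succ n ih =>
      rw [← ih]
      have k1 := step1 (2 * n) (even_two_mul n)
      have k2 := step2 (2 * n) (even_two_mul n)
      have hne : G (fun i : Fin b => 1 / w (2 * n + (i + 1))) ≠ 0 := by
        intro h; rw [h, mul_zero] at k1; exact zero_ne_one k1
      rw [show 2 * (n + 1) = 2 * n + 2 by ring]
      apply mul_left_cancel₀ hne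
      rw [k2, mul_comm, k1]
  have hlim := hW.tendsto_LL ha hab hc (fun n _ => hwp n)
  have hLL : LL a b w = LL a b s :=
    LL_congr ha hab hc (fun n _ => hwp n) (fun n hn => hw0 n hn)
  rw [hLL] at hlim
  set L := LL a b s with hL
  have hLb : |L - 1| ≤ ε / 2 := by
    apply le_of_tendsto ((hlim.sub_const 1).abs)
    exact Eventually.of_forall hnear
  have hstate : Tendsto (fun n => (fun i : Fin b => w (2 * n + i))) atTop
      (𝓝[{s | ∀ i, |s i - 1| ≤ ε}] (fun _ => L)) := by
    rw [tendsto_nhdsWithin_iff]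
    constructor
    · rw [tendsto_pi_nhds]
      intro i
      apply hlim.comp
      exact tendsto_atTop_mono (fun n : ℕ => (by omega : n ≤ 2 * n + (i : ℕ))) tendsto_id
    · refine Eventually.of_forall (fun n i => (hnear _).trans (by linarith))
  have hG2 : Tendsto (fun n => G (fun i : Fin b => w (2 * n + i))) atTop (𝓝 (G (fun _ => L))) :=
    (hGc (fun _ => L) (fun _ => hLb.trans (by linarith))).tendsto.comp hstate
  simp only [hconst] at hG2
  have h3 := tendsto_nhds_unique hG2 tendsto_const_nhds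
  rw [hG0 L (hLb.trans (by linarith))] at h3
  rw [h3]
  congr 1
  funext i
  exact (hw0 i i.2).symm

/-- The series satisfies the equations, and they determine it. -/
def DetU (a b : ℕ) (ε : ℝ) (c : (Fin b →₀ ℕ) → ℝ) : Prop :=
  Determining a b ε (fun s => mser c (fun i => s i - 1)) ∧
  ∀ G : (Fin b → ℝ) → ℝ, ContinuousOn G {s | ∀ i, |s i - 1| ≤ ε} → Determining a b ε G →
    ∀ s : Fin b → ℝ, (∀ i, |s i - 1| ≤ ε / 4) → G s = mser c (fun i => s i - 1)

theorem detU {a b : ℕ} (ha : 0 < a) (hab : a ≤ b) (hc : Nat.Coprime a b) (hb : Odd b) {ε : ℝ}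
    (h0 : 0 < ε) (h1 : ε < 1) {c : (Fin b →₀ ℕ) → ℝ}
    (hser : ∀ z : Fin b → ℝ, (∀ i, |z i| ≤ ε) →
      LL a b (fun n => if h : n < b then 1 + z ⟨n, h⟩ else 1) = mser c z) : DetU a b ε c := by
  obtain ⟨e1, e2⟩ := eqs ha hab hc hb h0 h1 hser
  refine ⟨⟨e1, e2⟩, fun G hGc hG s hs => ?_⟩
  have k := determined ha hab hc hb h0 h1 hGc hG (s := fun n => if h : n < b then s ⟨n, h⟩ else 1)
    (fun i hi => by simp only [dif_pos hi]; exact hs _)
  have e3 : (fun i : Fin b => (fun n => if h : n < b then s ⟨n, h⟩ else 1) (i : ℕ)) = s := by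
    funext i
    simp only [i.2, dif_pos]
  rw [e3] at k
  rw [k, ← hser (fun i => s i - 1) (fun i => (hs i).trans (by linarith))]
  apply LL_congr ha hab hc
  · intro n hn
    simp only [dif_pos hn]
    have := (abs_le.1 (hs ⟨n, hn⟩)).1
    linarith
  · intro n hn
    simp only [dif_pos hn]
    ring

/-- The core, for an ordered pair. -/
theorem core9 {a b d k l : ℕ} (ha : Odd a) (hb : Odd b) (hab : a < b) (hc : Nat.Coprime a b)
    (hd : 0 < d) (hk : k + 1 = d * a) (hl : l + 1 = d * b) {ε : ℝ} (hε : 0 < ε)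
    (hε1 : ε < 1) (hs : SerE a b ε) :
    ∃ (c : (Fin b →₀ ℕ) → ℝ), AbsConv c ε ∧ DetU a b ε c ∧
    ∀ x : ℕ → ℝ, (∀ i ≤ l, 0 < x i) →
      (∀ j, x (j + l + 1) = 1 / x (j + l - k) + 1 / x j) →
      (∃ N, ∀ n, N ≤ n → Even n → ∀ j < d, ∀ i < b, |st d x n j i / st d x n j 0 - 1| ≤ ε / 2) ∧
      ∀ n, Even n → (∀ j < d, ∀ i < b, |st d x n j i / st d x n j 0 - 1| ≤ ε / 2) →
        ((fun i : Fin (l + 1) => x i) ∈ BasinM k l l ↔
          ∀ j < d, st d x n j 0 * mser c (fun i : Fin b => st d x n j i / st d x n j 0 - 1) =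
            √2) := by
  obtain ⟨c, hconv, hser⟩ := hs
  have ha0 := ha.pos
  have hb0 := hb.pos
  refine ⟨c, hconv, detU ha0 hab.le hc hb hε hε1 hser, ?_⟩
  intro x hx0 hx
  have hkl : k < l := by
    have : d * a < d * b := Nat.mul_lt_mul_of_pos_left hab hd
    omega
  have hxp : ∀ n, 0 < x n := by
    intro n
    induction n using Nat.strong_induction_on with
    | _ n ih =>
      by_cases hn : n ≤ l
      · exact hx0 n hn
      · obtain ⟨j, rfl⟩ : ∃ j, n = j + l + 1 := ⟨n - (l + 1), by omega⟩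
        rw [hx j]
        have := ih (j + l - k) (by omega)
        have := ih j (by omega)
        positivity
  -- the rows
  have hzsol : ∀ r, IsSol a b (fun j => x (d * j + r)) := by
    intro r j
    have h := hx (d * j + r)
    have e1 : d * j + r + l + 1 = d * (j + b) + r := by rw [mul_add, ← hl]; ring
    have e2 : d * j + r + l - k = d * (j + b - a) + r := by
      have h1 : j + b - a + a = j + b := by omega
      have h3 : d * (j + b - a) + d * a = d * j + d * b := by
        rw [← mul_add, h1, mul_add]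
      omega
    rw [e1, e2] at h
    exact h
  have hzp : ∀ r j, 0 < x (d * j + r) := fun r j => hxp _
  have hW : ∀ r, IsW a b (flp (fun j => x (d * j + r))) := fun r =>
    isW_flp ha hb hab.le (fun j => hzp r j) (hzsol r)
  have hWp : ∀ r j, 0 < flp (fun j => x (d * j + r)) j := fun r j =>
    flp_pos (fun j => hzp r j) j
  have hst : ∀ n, Even n → ∀ j i, st d x n j i = flp (fun j' => x (d * j' + j)) (i + n) := by
    intro n hn j i
    unfold st flp
    have e : (n + i) * d + j = d * (i + n) + j := by ring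
    have e2 : Even (i + n) ↔ Even i := by
      rw [Nat.even_add]; simp [hn]
    rw [e]
    by_cases hi : Even i
    · rw [if_pos hi, if_pos (e2.2 hi)]
    · rw [if_neg hi, if_neg (fun h => hi (e2.1 h))]
  constructor
  · -- convergence
    have h1 : ∀ j : ℕ, ∃ N, ∀ m m', N ≤ m → N ≤ m' →
        |flp (fun j' => x (d * j' + j)) m / flp (fun j' => x (d * j' + j)) m' - 1| ≤ ε / 2 := by
      intro j
      obtain ⟨L, hL, hT⟩ := (hW j).converges ha0 hab.le hc (fun n _ => hWp j n)
      have hev : ∀ᶠ p : ℕ × ℕ in atTop,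
          |flp (fun j' => x (d * j' + j)) p.1 / flp (fun j' => x (d * j' + j)) p.2 - 1| < ε / 2 := by
        have hT1 : Tendsto (fun p : ℕ × ℕ => flp (fun j' => x (d * j' + j)) p.1) atTop (𝓝 L) := by
          rw [← prod_atTop_atTop_eq]; exact hT.comp tendsto_fst
        have hT2 : Tendsto (fun p : ℕ × ℕ => flp (fun j' => x (d * j' + j)) p.2) atTop (𝓝 L) := by
          rw [← prod_atTop_atTop_eq]; exact hT.comp tendsto_snd
        have hT3 := ((hT1.div hT2 hL.ne').sub_const 1).abs
        rw [div_self hL.ne', sub_self, abs_zero] at hT3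
        exact hT3.eventually_lt_const (by positivity)
      obtain ⟨⟨N1, N2⟩, hN⟩ := eventually_atTop.1 hev
      refine ⟨max N1 N2, fun m m' hm hm' => (hN (m, m') ?_).le⟩
      exact ⟨le_of_max_le_left hm, le_of_max_le_right hm'⟩
    choose N hN using h1
    refine ⟨(Finset.range d).sup N, fun n hn hne j hj i _ => ?_⟩
    have hNj : N j ≤ n := (Finset.le_sup (Finset.mem_range.2 hj)).trans hn
    rw [hst n hne, hst n hne]
    exact hN j _ _ (by omega) (by omega)
  · intro n hne hclose
    rw [mem_BasinM_iff ha hb hab hc hd hk hl]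
    have key : ∀ r (hr : r < d), (row hl (fun i : Fin (l + 1) => x i) r hr ∈ Red a b ↔
        st d x n r 0 * mser c (fun i : Fin b => st d x n r i / st d x n r 0 - 1) = √2) := by
      intro r hr
      have hrow : ∀ j, row hl (fun i : Fin (l + 1) => x i) r hr j = x (d * (j : ℕ) + r) := by
        intro j; rfl
      have hLL : LL a b (ww (row hl (fun i : Fin (l + 1) => x i) r hr)) =
          LL a b (flp (fun j => x (d * j + r))) := by
        apply LL_congr ha0 hab.le hc
        · intro j _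
          exact ww_pos (fun i => by rw [hrow]; exact hxp _) j
        · intro j hj
          unfold ww flp
          rw [dif_pos hj, hrow]
      have hsh := LL_shift_even ha0 hab.le hc (hW r) (fun j _ => hWp r j) hne
      have p0 : 0 < st d x n r 0 := by rw [hst n hne]; exact hWp r _
      have hval := hser (fun i : Fin b => st d x n r i / st d x n r 0 - 1)
        (fun i => (hclose r hr i i.2).trans (by linarith))
      have hpos : ∀ j < b, 0 < (fun j : ℕ => if h : j < b then
          1 + (fun i : Fin b => st d x n r i / st d x n r 0 - 1) ⟨j, h⟩ else (1 : ℝ)) j := by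
        intro j hj
        simp only
        rw [dif_pos hj]
        have := hWp r (j + n)
        rw [← hst n hne] at this
        have h2 : 1 + (st d x n r j / st d x n r 0 - 1) = st d x n r j / st d x n r 0 := by ring
        rw [h2]
        positivity
      rw [← hval, ← LL_smul ha0 hab.le hc hpos p0]
      have hfin : LL a b (fun j => flp (fun j' => x (d * j' + r)) (j + n)) =
          LL a b (fun j => st d x n r 0 * (if h : j < b then
            1 + (fun i : Fin b => st d x n r i / st d x n r 0 - 1) ⟨j, h⟩ else (1 : ℝ))) := by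
        apply LL_congr ha0 hab.le hc (fun j _ => hWp r _)
        intro j hj
        rw [dif_pos hj, ← hst n hne]
        simp only
        field_simp
        ring
      rw [← hfin, hsh, ← hLL]
      constructor
      · exact fun h => h.2
      · exact fun h => ⟨fun i => by rw [hrow]; exact hxp _, h⟩
    constructor
    · exact fun h j hj => (key j hj).1 (h j hj)
    · exact fun h r hr => (key r hr).2 (h r hr)

/-- The general pair. -/
theorem main9 {k l : ℕ} (hkl : k ≠ l) (hv : padicValNat 2 (k + 1) = padicValNat 2 (l + 1))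
    {d a b : ℕ} (hd : d = Nat.gcd (k + 1) (l + 1)) (ha : min k l + 1 = a * d)
    (hb : max k l + 1 = b * d) {ε : ℝ} (hε : ε = 1 / 4 ^ (a * b + b + 3)) :
    ∃ (c : (Fin b →₀ ℕ) → ℝ), AbsConv c ε ∧ DetU a b ε c ∧
    ∀ x : ℕ → ℝ, (∀ i ≤ max k l, 0 < x i) →
      (∀ j, x (j + max k l + 1) = 1 / x (j + max k l - k) + 1 / x (j + max k l - l)) →
      (∃ N, ∀ n, N ≤ n → Even n → ∀ j < d, ∀ i < b, |st d x n j i / st d x n j 0 - 1| ≤ ε / 2) ∧
      ∀ n, Even n → (∀ j < d, ∀ i < b, |st d x n j i / st d x n j 0 - 1| ≤ ε / 2) →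
        ((fun i : Fin (max k l + 1) => x i) ∈ Basin k l ↔
          ∀ j < d, st d x n j 0 * mser c (fun i : Fin b => st d x n j i / st d x n j 0 - 1) =
            √2) := by
  unfold Basin
  -- ordered version
  have main : ∀ k l : ℕ, k < l → padicValNat 2 (k + 1) = padicValNat 2 (l + 1) →
      d = Nat.gcd (k + 1) (l + 1) → k + 1 = a * d → l + 1 = b * d →
      ∃ (c : (Fin b →₀ ℕ) → ℝ), AbsConv c ε ∧ DetU a b ε c ∧
      ∀ x : ℕ → ℝ, (∀ i ≤ l, 0 < x i) →
        (∀ j, x (j + l + 1) = 1 / x (j + l - k) + 1 / x j) →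
        (∃ N, ∀ n, N ≤ n → Even n → ∀ j < d, ∀ i < b, |st d x n j i / st d x n j 0 - 1| ≤ ε / 2) ∧
        ∀ n, Even n → (∀ j < d, ∀ i < b, |st d x n j i / st d x n j 0 - 1| ≤ ε / 2) →
          ((fun i : Fin (l + 1) => x i) ∈ BasinM k l l ↔
            ∀ j < d, st d x n j 0 * mser c (fun i : Fin b => st d x n j i / st d x n j 0 - 1) =
              √2) := by
    intro k l hlt hv hd ha hb
    obtain ⟨a', b', h1, h2, h3, h4, h5, h6, h7⟩ := reduced_pair hlt hv
    rw [← hd] at h5 h6 h7
    have hbb : b' = b := by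
      have : d * b' = d * b := by rw [← h7, hb, mul_comm]
      exact Nat.eq_of_mul_eq_mul_left h5 this
    have haa : a' = a := by
      have : d * a' = d * a := by rw [← h6, ha, mul_comm]
      exact Nat.eq_of_mul_eq_mul_left h5 this
    subst hbb haa
    have hε0 : 0 < ε := by rw [hε]; positivity
    have hε1 : ε < 1 := by
      rw [hε, div_lt_one (by positivity)]
      exact one_lt_pow₀ (by norm_num) (by omega)
    exact core9 h1 h2 h3 h4 h5 h6 h7 hε0 hε1 (hε ▸ series_eps h1.pos h3.le h4)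
  rcases Nat.lt_or_gt_of_ne hkl with h | h
  · have hm : max k l = l := max_eq_right h.le
    have hn : min k l = k := min_eq_left h.le
    rw [hn] at ha
    obtain ⟨m, hm'⟩ : ∃ m, m = max k l := ⟨_, rfl⟩
    rw [← hm'] at hb ⊢
    obtain rfl : m = l := by omega
    obtain ⟨c, g3, g4, g5⟩ := main k m h hv hd ha hb
    refine ⟨c, g3, g4, fun x hx hr => g5 x hx fun j => ?_⟩
    have := hr j
    rwa [Nat.add_sub_cancel] at this
  · have hn : min k l = l := min_eq_right h.le
    rw [hn] at ha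
    obtain ⟨m, hm'⟩ : ∃ m, m = max k l := ⟨_, rfl⟩
    rw [← hm'] at hb ⊢
    have hm2 : max k l = k := max_eq_left h.le
    obtain rfl : m = k := by omega
    obtain ⟨c, g3, g4, g5⟩ := main l m h hv.symm (by rw [hd, Nat.gcd_comm]) ha hb
    rw [BasinM_symm]
    refine ⟨c, g3, g4, fun x hx hr => g5 x hx fun j => ?_⟩
    have := hr j
    rw [Nat.add_sub_cancel] at this
    rw [this, add_comm]

end Pool.Agent.Lib_helper72.RBO
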